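import Mathlib
import Pool.Agent.H468R2.Frag.Gip
import Pool.Agent.H468R2.Frag.Rect

/-! # Few public bits: a small union of cylinder intersections -/

open Finset

namespace Pool.Agent.W949.Nest

open Pool.Agent.H468R2.Frag

open Classical in
/-- If a function which contains the generalised inner product with `m` columns of `K + 1` bits
is a union of at most `2 ^ d` sets, each of which is an intersection of conditions not depending
on the row of some player, then `m ≤ 4 ^ K * (d + 2)`. -/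
theorem few_public {N : ℕ} (f : (Fin N → Bool) → Bool) {T Z : Type} [Fintype T] [Fintype Z]
    (OK : T → Z → (Fin N → Bool) → Prop) (hfz : ∀ x, f x = true ↔ ∃ z, ∀ t, OK t z x)
    (K m d : ℕ) (hd : Fintype.card Z ≤ 2 ^ d)
    (p : T → Fin (K + 1)) (ρ : (Fin (K + 1) → Fin m → Bool) → Fin N → Bool)
    (hρ : ∀ t z y y', (∀ j, j ≠ p t → y j = y' j) → OK t z (ρ y) → OK t z (ρ y'))
    (hf : ∀ y, f (ρ y) = true ↔ Odd (univ.filter fun l => ∀ j, y j l = true).card) :
    m ≤ 4 ^ K * (d + 2) := by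
  set β : ℝ := 1 - (1 / 4 : ℝ) ^ K with hβ
  set M : ℝ := (2 : ℝ) ^ ((K + 1) * m) with hM
  let sg : (Fin (K + 1) → Fin m → Bool) → ℝ := fun y =>
    ∏ l : Fin m, if ∀ j, y j l = true then (-1 : ℝ) else 1
  let φ : Z → Fin (K + 1) → (Fin (K + 1) → Fin m → Bool) → ℝ :=
    fun z j y => if ∀ b, p b = j → OK b z (ρ y) then 1 else 0
  have hφ1 : ∀ z j y, |φ z j y| ≤ 1 := by
    intro z j y
    simp only [φ]
    split_ifs <;> simp
  have hφ2 : ∀ z j y y', (∀ i, i ≠ j → y i = y' i) → φ z j y = φ z j y' := by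
    intro z j y y' h
    have : (∀ b, p b = j → OK b z (ρ y)) ↔ (∀ b, p b = j → OK b z (ρ y')) := by
      constructor
      · intro H b hb
        exact hρ b z y y' (by rw [hb]; exact h) (H b hb)
      · intro H b hb
        exact hρ b z y' y (by rw [hb]; exact fun i hi => (h i hi).symm) (H b hb)
    simp only [φ, this]
  have hprod : ∀ z y, (∏ j, φ z j y) = if ∀ b, OK b z (ρ y) then 1 else 0 := by
    intro z y
    split_ifs with h
    · apply Finset.prod_eq_one
      intro j _
      simp only [φ]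
      rw [if_pos]
      intro b _
      exact h b
    · push Not at h
      obtain ⟨b, hb⟩ := h
      apply Finset.prod_eq_zero (mem_univ (p b))
      simp only [φ]
      rw [if_neg]
      intro H
      exact hb (H b rfl)
  have hsg : ∀ y, sg y = if f (ρ y) = true then -1 else 1 := by
    intro y
    simp only [sg]
    rw [sign_eq]
    by_cases h : f (ρ y) = true
    · rw [if_pos h]
      exact Odd.neg_one_pow ((hf y).1 h)
    · rw [if_neg h]
      apply Even.neg_one_pow
      rw [← Nat.not_odd_iff_even]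
      exact fun hh => h ((hf y).2 hh)
  -- discrepancy bounds
  have hA : ∀ z, (∑ y, ∏ j, φ z j y) ≤ M * β ^ m := by
    intro z
    have h := gip_disc m K univ (φ z) (hφ1 z) (hφ2 z)
    rw [card_univ, Fintype.card_fin] at h
    refine le_trans (le_trans (le_of_eq ?_) (neg_le_abs _)) h
    rw [← Finset.sum_neg_distrib]
    apply Finset.sum_congr rfl
    intro y _
    change _ = -(sg y * _)
    rw [hsg y]
    by_cases hfy : f (ρ y) = true
    · rw [if_pos hfy]; ring
    · rw [if_neg hfy, hprod]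
      rw [if_neg]
      · simp
      · intro H
        exact hfy ((hfz (ρ y)).2 ⟨z, H⟩)
  have hB : (∑ y, sg y) ≤ M * β ^ m := by
    have h := gip_disc m K univ (fun _ _ => (1 : ℝ)) (by simp) (by simp)
    rw [card_univ, Fintype.card_fin] at h
    refine le_trans (le_trans (le_of_eq ?_) (le_abs_self _)) h
    apply Finset.sum_congr rfl
    intro y _
    simp [sg]
  have hcard : (∑ _y : Fin (K + 1) → Fin m → Bool, (1 : ℝ)) = M := by
    simp [hM, Fintype.card_pi, mul_comm, pow_mul]
  -- counting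
  have hC1 : ∑ y, (1 - sg y) / 2 ≤ ∑ y, ∑ z, ∏ j, φ z j y := by
    apply Finset.sum_le_sum
    intro y _
    rw [hsg y]
    have hnn : ∀ z, 0 ≤ ∏ j, φ z j y := by
      intro z
      rw [hprod]
      split_ifs <;> norm_num
    by_cases hfy : f (ρ y) = true
    · rw [if_pos hfy]
      obtain ⟨z, hz⟩ := (hfz (ρ y)).1 hfy
      have : (1 : ℝ) = ∏ j, φ z j y := by
        rw [hprod, if_pos hz]
      calc (1 - (-1 : ℝ)) / 2 = ∏ j, φ z j y := by rw [← this]; norm_num
        _ ≤ _ := Finset.single_le_sum (f := fun z => ∏ j, φ z j y) (fun z _ => hnn z) (mem_univ z)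
    · rw [if_neg hfy]
      simp only [sub_self, zero_div]
      exact Finset.sum_nonneg fun z _ => hnn z
  rw [Finset.sum_comm] at hC1
  have hMpos : 0 < M := by positivity
  have hβ0 : 0 ≤ β := by
    rw [hβ, sub_nonneg]
    exact pow_le_one₀ (by norm_num) (by norm_num)
  have hC2 : ∑ z, ∑ y, ∏ j, φ z j y ≤ 2 ^ d * (M * β ^ m) := by
    refine le_trans (Finset.sum_le_sum (fun z _ => hA z)) ?_
    rw [Finset.sum_const, nsmul_eq_mul, card_univ]
    apply mul_le_mul_of_nonneg_right _ (by positivity)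
    exact_mod_cast hd
  have hC3 : ∑ y, (1 - sg y) / 2 = (M - ∑ y, sg y) / 2 := by
    rw [← Finset.sum_div, Finset.sum_sub_distrib, hcard]
  have hmain : (1 : ℝ) ≤ 2 ^ (d + 2) * β ^ m := by
    have h1 : (M - M * β ^ m) / 2 ≤ 2 ^ d * (M * β ^ m) := by
      calc (M - M * β ^ m) / 2 ≤ (M - ∑ y, sg y) / 2 := by linarith
        _ = ∑ y, (1 - sg y) / 2 := hC3.symm
        _ ≤ _ := hC1
        _ ≤ _ := hC2
    have h2 : M * 1 ≤ M * ((2 * 2 ^ d + 1) * β ^ m) := by nlinarith
    have h3 := le_of_mul_le_mul_left h2 hMpos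
    have h4 : (2 * 2 ^ d + 1 : ℝ) ≤ 2 ^ (d + 2) := by
      rw [pow_add]
      have : (1 : ℝ) ≤ 2 ^ d := one_le_pow₀ (by norm_num)
      nlinarith
    exact h3.trans (mul_le_mul_of_nonneg_right h4 (by positivity))
  have hexp : β ^ m ≤ Real.exp (-((m : ℝ) * (1 / 4) ^ K)) := by
    have h1 : β ≤ Real.exp (-((1 / 4 : ℝ) ^ K)) := by
      rw [hβ]
      exact Real.one_sub_le_exp_neg _
    calc β ^ m ≤ (Real.exp (-((1 / 4 : ℝ) ^ K))) ^ m := pow_le_pow_left₀ hβ0 h1 m
      _ = _ := by rw [← Real.exp_nat_mul]; congr 1; ring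
  have h5 : Real.exp ((m : ℝ) * (1 / 4) ^ K) ≤ Real.exp ((d + 2 : ℕ) : ℝ) := by
    have h6 : (1 : ℝ) ≤ 2 ^ (d + 2) * Real.exp (-((m : ℝ) * (1 / 4) ^ K)) :=
      hmain.trans (mul_le_mul_of_nonneg_left hexp (by positivity))
    rw [Real.exp_neg] at h6
    have hpos := Real.exp_pos ((m : ℝ) * (1 / 4) ^ K)
    have h7 : Real.exp ((m : ℝ) * (1 / 4) ^ K) ≤ 2 ^ (d + 2) := by
      have := mul_le_mul_of_nonneg_right h6 hpos.le
      rw [one_mul, mul_assoc, inv_mul_cancel₀ hpos.ne', mul_one] at this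
      exact this
    refine h7.trans ?_
    rw [← Real.exp_one_pow]
    apply pow_le_pow_left₀ (by norm_num)
    have := Real.add_one_le_exp (1 : ℝ)
    linarith
  have h6 := Real.exp_le_exp.1 h5
  have h7 : (m : ℝ) ≤ 4 ^ K * ((d : ℝ) + 2) := by
    have h8 : ((1 : ℝ) / 4) ^ K = 1 / 4 ^ K := by rw [div_pow, one_pow]
    rw [h8, mul_one_div, div_le_iff₀ (by positivity)] at h6
    push_cast at h6
    linarith
  exact_mod_cast h7

end Pool.Agent.W949.Nest
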