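import Mathlib
import Pool.Agent.H559R2.SharingDefs

/-!
# Paths, shared gates and modules of circuits

Definitions only. Circuits are those of `Pool.Agent.H559R2.SharingDefs` (fan-in at most two,
arbitrary gates, `q` guess bits). `C.supp g` is the set of the variables (inputs and guess bits)
from which the gate `g` can be reached, and `C.fanOut g` is the number of wires leaving `g`.
-/

open Finset

namespace Pool.Agent.W949.Nest

open Pool.Agent.H559R2.Sharing

variable {N q : ℕ}

/-- There is a wire from the gate `u` to the gate `g`. -/
def Wire (C : Circuit N q) (u g : Fin C.size) : Prop :=
  (Sum.inr u : Src N q C.size) ∈ (C.gate g).wires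

/-- `l` is a directed path of gates (every gate of the list feeds the next one) none of whose
gates is in `H`. -/
def IsPath (C : Circuit N q) (H : Finset (Fin C.size)) (l : List (Fin C.size)) : Prop :=
  l.IsChain (Wire C) ∧ ∀ g ∈ l, g ∉ H

open Classical in
/-- Outside `H` sharing is nested at most `r` times: every directed path avoiding `H` contains
at most `r` gates which have two or more outgoing wires and lie above more than `K` variables. -/
def SharingDepthLE (C : Circuit N q) (H : Finset (Fin C.size)) (K r : ℕ) : Prop :=
  ∀ l, IsPath C H l →
    (l.filter fun g => 2 ≤ C.fanOut g ∧ K < (C.supp g).card).length ≤ r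

/-- The gates are partitioned into modules: `κ g` is the module of `g`. A port is a gate outside
`H` which lies above more than `K` variables and feeds a gate of another module. -/
def IsPort {B : Type} (C : Circuit N q) (H : Finset (Fin C.size)) (κ : Fin C.size → B) (K : ℕ)
    (u : Fin C.size) : Prop :=
  u ∉ H ∧ K < (C.supp u).card ∧ ∃ g, Wire C u g ∧ κ g ≠ κ u

open Classical in
/-- The sources read by the module `b`: the variables (inputs and guess bits) and the gates of
other modules that feed a gate of `b`. -/
noncomputable def moduleSources {B : Type} (C : Circuit N q) (κ : Fin C.size → B) (b : B) :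
    Finset (Src N q C.size) :=
  univ.filter fun a => (∃ g, κ g = b ∧ a ∈ (C.gate g).wires) ∧ ∀ u, a = Sum.inr u → κ u ≠ b

open Classical in
/-- A decomposition of the circuit into modules, nested at most `r` times: every module reads at
most `N / E` sources, a module with `m` gates has at most `r + m / E` ports, and every directed
path avoiding the set `H` of exceptional gates contains at most `r` ports. -/
structure ModularLE (C : Circuit N q) (H : Finset (Fin C.size)) (κ : Fin C.size → ℕ)
    (K r E : ℕ) : Prop where
  reads : ∀ b, (moduleSources C κ b).card ≤ N / E
  ports : ∀ b, (univ.filter fun g => IsPort C H κ K g ∧ κ g = b).card ≤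
    r + (univ.filter fun g => κ g = b).card / E
  depth : ∀ l, IsPath C H l → (l.filter fun g => IsPort C H κ K g).length ≤ r

end Pool.Agent.W949.Nest
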