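import Mathlib
import Pool.Agent.W949.Nest.Defs
import Pool.Agent.H559R2.SharingCore

/-! # Visible variables, and the circuit with some gates overridden by public bits -/

open Finset

namespace Pool.Agent.W949.Nest

open Pool.Agent.H559R2.Sharing

variable {N q : ℕ}

/-- The variable `i` is visible from the gate `g`: there is a path from `i` to `g` on which no
gate, except possibly `g`, is in `X`. -/
inductive Vis (C : Circuit N q) (X : Finset (Fin C.size)) : Fin C.size → Fin N → Prop
  | var (g : Fin C.size) (i : Fin N)
      (h : (Sum.inl (Sum.inl i) : Src N q C.size) ∈ (C.gate g).wires) : Vis C X g i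
  | gate (g u : Fin C.size) (i : Fin N) (h : Wire C u g) (hu : u ∉ X) (h' : Vis C X u i) :
      Vis C X g i

lemma Vis.anti {C : Circuit N q} {X X' : Finset (Fin C.size)} (hX : X ⊆ X') {g : Fin C.size}
    {i : Fin N} (h : Vis C X' g i) : Vis C X g i := by
  induction h with
  | var g i h => exact .var g i h
  | gate g u i h hu _ ih => exact .gate g u i h (fun h' => hu (hX h')) ih

lemma exists_ovr (C : Circuit N q) (X : Finset (Fin C.size)) (z : Fin C.size → Bool)
    (ξ : Fin N ⊕ Fin q → Bool) :
    ∃ v : Fin C.size → Bool, ∀ g, v g = if g ∈ X then z g else (C.gate g).eval (Sum.elim ξ v) := by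
  apply exists_fixed (fun g v => if g ∈ X then z g else (C.gate g).eval (Sum.elim ξ v))
  intro g v v' h
  by_cases hg : g ∈ X
  · simp only [hg, if_true]
  · simp only [hg, if_false]
    apply Gate.eval_congr
    intro a ha
    rcases a with a | a
    · rfl
    · exact h a (C.acyclic g a ha)

/-- The values of the gates when the gates in `X` are given the values `z`. -/
noncomputable def ovr (C : Circuit N q) (X : Finset (Fin C.size)) (z : Fin C.size → Bool)
    (ξ : Fin N ⊕ Fin q → Bool) : Fin C.size → Bool := (exists_ovr C X z ξ).choose

lemma ovr_spec (C : Circuit N q) (X : Finset (Fin C.size)) (z : Fin C.size → Bool)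
    (ξ : Fin N ⊕ Fin q → Bool) (g : Fin C.size) :
    ovr C X z ξ g = if g ∈ X then z g else (C.gate g).eval (Sum.elim ξ (ovr C X z ξ)) :=
  (exists_ovr C X z ξ).choose_spec g

lemma ovr_unique (C : Circuit N q) (X : Finset (Fin C.size)) (z : Fin C.size → Bool)
    (ξ : Fin N ⊕ Fin q → Bool) (v : Fin C.size → Bool)
    (hv : ∀ g, v g = if g ∈ X then z g else (C.gate g).eval (Sum.elim ξ v)) :
    ovr C X z ξ = v := by
  have key : ∀ k : ℕ, ∀ i : Fin C.size, i.val < k → ovr C X z ξ i = v i := by
    intro k
    induction k with
    | zero => intro i hi; exact absurd hi (Nat.not_lt_zero _)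
    | succ k ih =>
      intro i hi
      rw [ovr_spec, hv i]
      by_cases hX : i ∈ X
      · simp only [hX, if_true]
      · simp only [hX, if_false]
        apply Gate.eval_congr
        intro a ha
        rcases a with a | a
        · rfl
        · have : a.val < i.val := C.acyclic i a ha
          exact ih a (by omega)
  funext i
  exact key C.size i i.isLt

/-- The value computed at the gate `g` from the values of its sources, when the gates in `X` are
given the values `z`. -/
noncomputable def gval (C : Circuit N q) (X : Finset (Fin C.size)) (z : Fin C.size → Bool)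
    (ξ : Fin N ⊕ Fin q → Bool) (g : Fin C.size) : Bool :=
  (C.gate g).eval (Sum.elim ξ (ovr C X z ξ))

/-- The value computed at a gate depends only on the variables visible from it. -/
lemma gval_congr (C : Circuit N q) (X : Finset (Fin C.size)) (z : Fin C.size → Bool)
    (w : Fin q → Bool) (x x' : Fin N → Bool) :
    ∀ (k : ℕ) (g : Fin C.size), g.val < k → (∀ i, Vis C X g i → x i = x' i) →
      gval C X z (Sum.elim x w) g = gval C X z (Sum.elim x' w) g := by
  intro k
  induction k with
  | zero => intro g hg; exact absurd hg (Nat.not_lt_zero _)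
  | succ k ih =>
    intro g hg hx
    unfold gval
    apply Gate.eval_congr
    intro a ha
    rcases a with (i | j) | u
    · exact hx i (.var g i ha)
    · rfl
    · change ovr C X z _ u = ovr C X z _ u
      rw [ovr_spec, ovr_spec C X z (Sum.elim x' w)]
      by_cases hu : u ∈ X
      · simp only [hu, if_true]
      · simp only [hu, if_false]
        have hlt : u.val < g.val := C.acyclic g u ha
        exact ih u (by omega) (fun i hi => hx i (.gate g u i ha hu hi))

/-- Extension of the public bits. -/
def extz {C : Circuit N q} (X : Finset (Fin C.size)) (z : {g // g ∈ X} → Bool) :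
    Fin C.size → Bool := fun g => if h : g ∈ X then z ⟨g, h⟩ else false

/-- The condition at the gate `t` on the input `x`, the guess bits and the public bits. -/
def OKat (C : Circuit N q) (X : Finset (Fin C.size)) (t : Fin C.size)
    (wz : (Fin q → Bool) × ({g // g ∈ X} → Bool)) (x : Fin N → Bool) : Prop :=
  (t ∈ X → gval C X (extz X wz.2) (Sum.elim x wz.1) t = extz X wz.2 t) ∧
    (t = C.out → gval C X (extz X wz.2) (Sum.elim x wz.1) t = true)

lemma okat_congr (C : Circuit N q) (X : Finset (Fin C.size)) (t : Fin C.size)
    (wz : (Fin q → Bool) × ({g // g ∈ X} → Bool)) (x x' : Fin N → Bool)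
    (h : t ∈ X ∨ t = C.out → ∀ i, Vis C X t i → x i = x' i) (hx : OKat C X t wz x) :
    OKat C X t wz x' := by
  constructor
  · intro ht
    rw [← gval_congr C X _ _ x x' (t.val + 1) t (Nat.lt_succ_self _) (h (Or.inl ht))]
    exact hx.1 ht
  · intro ht
    rw [← gval_congr C X _ _ x x' (t.val + 1) t (Nat.lt_succ_self _) (h (Or.inr ht))]
    exact hx.2 ht

lemma computes_iff (C : Circuit N q) (f : (Fin N → Bool) → Bool) (hC : C.Computes f)
    (X : Finset (Fin C.size)) (x : Fin N → Bool) :
    f x = true ↔ ∃ wz, ∀ t, OKat C X t wz x := by
  rw [hC x]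
  constructor
  · rintro ⟨w, v, hrun, hout⟩
    refine ⟨(w, fun u => v u.1), ?_⟩
    have hov : ovr C X (extz X fun u => v u.1) (Sum.elim x w) = v := by
      apply ovr_unique
      intro g
      by_cases hg : g ∈ X
      · simp only [hg, if_true, extz, dif_pos]
      · simp only [hg, if_false]
        exact hrun g
    intro t
    have ht : gval C X (extz X fun u => v u.1) (Sum.elim x w) t = v t := by
      unfold gval
      rw [hov]
      exact (hrun t).symm
    constructor
    · intro h
      rw [ht]
      simp only [extz, h, dif_pos]
    · intro h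
      rw [ht, h]
      exact hout
  · rintro ⟨⟨w, z⟩, h⟩
    set v := ovr C X (extz X z) (Sum.elim x w) with hv
    have hrun : C.IsRun (Sum.elim x w) v := by
      intro g
      by_cases hg : g ∈ X
      · have h1 := (h g).1 hg
        have h2 : v g = extz X z g := by
          rw [hv, ovr_spec]
          simp only [hg, if_true]
        rw [h2, ← h1]
        rfl
      · rw [hv, ovr_spec]
        simp only [hg, if_false]
    refine ⟨w, v, hrun, ?_⟩
    have h1 := (h C.out).2 rfl
    rw [hrun C.out]
    exact h1

end Pool.Agent.W949.Nest
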