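import Mathlib
import Pool.Agent.W949.Nest.Vis
import Pool.Agent.W949.Nest.Public
import Pool.Agent.H468R2.Frag.Core

/-! # The bound for circuits with few public gates, on a set of live positions -/

open Finset

namespace Pool.Agent.W949.Nest

open Pool.Agent.H559R2.Sharing Pool.Agent.H468R2.Frag

variable {N q : ℕ}

open Classical in
/-- If the gates are divided into blocks `blk g`, the live positions visible from `g` are in
`D (blk g)`, and the sets `D b` are small and have a small total size, then the number of live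
positions is bounded in terms of the number of public gates. -/
theorem final_bound (C : Circuit N q) (hC : C.Computes (gipFun N)) (X : Finset (Fin C.size))
    (L : Finset (Fin (N / 2))) {B : Type} [Fintype B] [DecidableEq B] (blk : Fin C.size → B)
    (D₀ : B → Finset (Fin (N / 2)))
    (hD₀ : ∀ g, ∀ i ∈ L, Vis C X g (dataIx N i) → i ∈ D₀ (blk g))
    (S r K : ℕ) (hK : 1 ≤ K) (hS : ∑ b, (D₀ b).card ≤ S) (hr : ∀ b, (D₀ b).card ≤ r)
    (hs : 2 * S ≤ (K + 1) ^ 2 * L.card) :
    L.card ≤ 2 ^ (13 * (K + 1)) * (X.card + q + r + 1) := by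
  set k := K + 1 with hk
  set d := X.card + q with hd
  let D : Fin (N / 2) → Finset B := fun i => univ.filter fun b => i ∈ D₀ b
  -- positions with few blocks
  have hsumD : ∑ i, (D i).card ≤ S := by
    refine le_trans ?_ hS
    have e1 : ∑ i, (D i).card = ∑ b, (univ.filter fun i => i ∈ D₀ b).card := by
      simp only [D, card_filter]
      exact sum_comm
    rw [e1]
    refine sum_le_sum fun b _ => ?_
    apply card_le_card
    intro i hi
    simpa using hi
  let G : Finset (Fin (N / 2)) := L.filter fun i => (D i).card ≤ k ^ 2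
  have hGc : (L.filter fun i => ¬ (D i).card ≤ k ^ 2).card * (k ^ 2 + 1) ≤ S := by
    refine le_trans ?_ hsumD
    rw [← smul_eq_mul, ← sum_const]
    refine le_trans (sum_le_sum (g := fun i => (D i).card) ?_) (sum_le_univ_sum_of_nonneg ?_)
    · intro i hi
      simp only [mem_filter, not_le] at hi
      exact hi.2
    · intro i; exact Nat.zero_le _
  have hGG : G.card + (L.filter fun i => ¬ (D i).card ≤ k ^ 2).card = L.card :=
    card_filter_add_card_filter_not _
  have hG : L.card ≤ 2 * G.card := by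
    by_contra hcon
    push Not at hcon
    set gc := (L.filter fun i => ¬ (D i).card ≤ k ^ 2).card with hgc
    have h1 : L.card < 2 * gc := by omega
    have h2 : 2 * (gc * (k ^ 2 + 1)) ≤ k ^ 2 * L.card := by omega
    have h3 : k ^ 2 * L.card ≤ k ^ 2 * (2 * gc) := Nat.mul_le_mul_left _ h1.le
    have h4 : 2 * (gc * (k ^ 2 + 1)) = k ^ 2 * (2 * gc) + 2 * gc := by ring
    omega
  -- the size of the classes
  set g := G.card / k - 1 with hg
  have hk0 : 0 < k := by omega
  have hgG : G.card ≤ k * (g + 2) := by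
    have h1 := Nat.lt_div_mul_add (a := G.card) hk0
    have h2 : G.card / k ≤ g + 1 := by omega
    have h3 : G.card / k * k ≤ (g + 1) * k := Nat.mul_le_mul_right _ h2
    nlinarith
  -- it suffices to bound `g`
  suffices hgb : g ≤ 4 * k ^ 3 * 16 ^ k * (d + r + 2) by
    have hkk : k ≤ 2 ^ k := (Nat.lt_two_pow_self).le
    have e1 : L.card ≤ 4 * (k * (g + 2)) + 1 := by omega
    have hk4 : k ^ 4 ≤ 2 ^ (4 * k) := by
      calc k ^ 4 ≤ (2 ^ k) ^ 4 := Nat.pow_le_pow_left hkk 4
        _ = 2 ^ (4 * k) := by rw [← pow_mul, mul_comm]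
    have h16 : 16 ^ k = 2 ^ (4 * k) := by
      rw [show (16 : ℕ) = 2 ^ 4 by norm_num, ← pow_mul]
    have e2 : k * (g + 2) ≤ 4 * k ^ 4 * 16 ^ k * (d + r + 2) + 2 * k := by
      calc k * (g + 2) ≤ k * (4 * k ^ 3 * 16 ^ k * (d + r + 2) + 2) :=
            Nat.mul_le_mul_left _ (by omega)
        _ = _ := by ring
    have e3 : 4 * k ^ 4 * 16 ^ k * (d + r + 2) ≤ 2 ^ (8 * k + 2) * (d + r + 2) := by
      apply Nat.mul_le_mul_right
      calc 4 * k ^ 4 * 16 ^ k ≤ 4 * 2 ^ (4 * k) * 2 ^ (4 * k) := by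
            rw [h16]; gcongr
        _ = 2 ^ (8 * k + 2) := by
            rw [show 8 * k + 2 = 2 + 4 * k + 4 * k by ring, pow_add, pow_add]; norm_num
    have e4 : 2 ^ (8 * k + 2) * (d + r + 2) ≤ 2 ^ (8 * k + 3) * (d + r + 1) := by
      rw [show 8 * k + 3 = (8 * k + 2) + 1 by ring, pow_succ 2 (8 * k + 2), mul_assoc]
      apply Nat.mul_le_mul_left
      omega
    have e5 : 8 * k + 1 ≤ 2 ^ (8 * k + 3) * (d + r + 1) := by
      have : 8 * k + 3 < 2 ^ (8 * k + 3) := Nat.lt_two_pow_self
      nlinarith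
    calc L.card ≤ 4 * (2 ^ (8 * k + 3) * (d + r + 1)) + (8 * k + 1) := by omega
      _ ≤ 8 * (2 ^ (8 * k + 3) * (d + r + 1)) := by omega
      _ = 2 ^ (8 * k + 6) * (d + r + 1) := by
          rw [show 8 * k + 6 = (8 * k + 3) + 3 by ring, pow_add 2 (8 * k + 3) 3]; ring
      _ ≤ 2 ^ (13 * k) * (d + r + 1) := by
          apply Nat.mul_le_mul_right
          apply Nat.pow_le_pow_right (by norm_num)
          omega
  by_cases hcase : g ≤ 4 * k ^ 3 * 16 ^ k * r
  · refine hcase.trans (Nat.mul_le_mul_left _ (by omega))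
  push Not at hcase
  -- the candidate positions
  have hidx : ∀ (j : Fin k) (l : ℕ), l < g + 1 → (j : ℕ) * (g + 1) + l < G.card := by
    intro j l hl
    have hg1 : g + 1 = G.card / k := by
      have : 0 < G.card / k := by
        by_contra hh
        have : g = 0 := by omega
        omega
      omega
    have h2 : (g + 1) * k ≤ G.card := by rw [hg1]; exact Nat.div_mul_le_self _ _
    have h3 : ((j : ℕ) + 1) * (g + 1) ≤ k * (g + 1) := Nat.mul_le_mul_right _ j.2
    nlinarith
  let emb : Fin G.card ↪o Fin (N / 2) := G.orderEmbOfFin rfl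
  let e : Fin k → Fin g → Fin (N / 2) := fun j l =>
    emb ⟨(j : ℕ) * (g + 1) + l, hidx j l (by omega)⟩
  let sp : Fin K → ℕ := fun i => (emb ⟨(i : ℕ) * (g + 1) + g,
    hidx ⟨i, by omega⟩ g (by omega)⟩ : Fin (N / 2))
  have he : ∀ j, Function.Injective (e j) := by
    intro j l l' h
    have := emb.injective h
    simp only [Fin.mk.injEq] at this
    exact Fin.ext (by omega)
  have hmemG : ∀ i, emb i ∈ G := fun i => G.orderEmbOfFin_mem rfl i
  have hDe : ∀ j l, (D (e j l)).card ≤ k ^ 2 := by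
    intro j l
    have := hmemG ⟨(j : ℕ) * (g + 1) + l, hidx j l (by omega)⟩
    exact (mem_filter.1 this).2
  have hrD : ∀ b, (univ.filter fun i => b ∈ D i).card ≤ r := by
    intro b
    refine le_trans ?_ (hr b)
    apply card_le_card
    intro i hi
    simpa [D] using hi
  obtain ⟨p, hp⟩ := choose_players D k g r (by omega) e he hDe hrD hcase
  -- the smallest number of columns
  obtain ⟨j0, -, hj0⟩ := exists_mem_eq_inf' (s := (univ : Finset (Fin k))) ⟨⟨0, hk0⟩, mem_univ _⟩
    (fun j => (univ.filter fun l : Fin g => ∀ b ∈ D (e j l), p b ≠ j).card)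
  set m := (univ : Finset (Fin k)).inf' ⟨⟨0, hk0⟩, mem_univ _⟩
    (fun j => (univ.filter fun l : Fin g => ∀ b ∈ D (e j l), p b ≠ j).card) with hm
  have hgm : g ≤ 2 * 4 ^ k * m := by rw [hj0]; exact hp j0
  have hmj : ∀ j, m ≤ (univ.filter fun l : Fin g => ∀ b ∈ D (e j l), p b ≠ j).card :=
    fun j => inf'_le _ (mem_univ j)
  choose U hU1 hU2 using fun j => exists_subset_card_eq (hmj j)
  let o : ∀ j, Fin m ↪o Fin g := fun j => (U j).orderEmbOfFin (hU2 j)
  have ho : ∀ j l, ∀ b ∈ D (e j (o j l)), p b ≠ j := by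
    intro j l
    have h1 : o j l ∈ U j := (U j).orderEmbOfFin_mem (hU2 j) l
    have h2 := hU1 j h1
    simp only [mem_filter, mem_univ, true_and] at h2
    exact h2
  let W : Fin (K + 1) → Fin m → ℕ := fun j l => (e j (o j l) : Fin (N / 2))
  obtain ⟨ρ, hρ1, hρ2⟩ := word_restrict N K m W sp (fun j l => (e j (o j l)).2) (fun i => Fin.is_lt _)
    (by
      intro j l l' hl
      have h1 : o j l < o j l' := (o j).strictMono hl
      simp only [W, e]
      have h3 : (⟨(j : ℕ) * (g + 1) + (o j l : Fin g), hidx j _ (by omega)⟩ : Fin G.card) <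
          ⟨(j : ℕ) * (g + 1) + (o j l' : Fin g), hidx j _ (by omega)⟩ := by
        rw [Fin.mk_lt_mk]
        have : ((o j l : Fin g) : ℕ) < (o j l' : Fin g) := h1
        omega
      exact emb.strictMono h3)
    (by
      intro i i' hi
      simp only [sp]
      apply emb.strictMono
      rw [Fin.mk_lt_mk]
      have : (i : ℕ) < i' := hi
      nlinarith)
    (by
      intro j l i hij
      simp only [sp, W, e]
      apply emb.strictMono
      rw [Fin.mk_lt_mk]
      nlinarith)
    (by
      intro j l i hij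
      simp only [sp, W, e]
      apply emb.strictMono
      rw [Fin.mk_lt_mk]
      have := (o j l).2
      nlinarith)
  have hZ : Fintype.card ((Fin q → Bool) × ({g // g ∈ X} → Bool)) ≤ 2 ^ d := by
    rw [Fintype.card_prod, Fintype.card_fun, Fintype.card_fun, Fintype.card_bool,
      Fintype.card_fin, Fintype.card_coe, ← pow_add, hd, add_comm]
  have hfb : m ≤ 4 ^ K * (d + 2) := by
    refine few_public (gipFun N) (OKat C X) (computes_iff C (gipFun N) hC X) K m d hZ
      (fun t => p (blk t)) ρ ?_ hρ1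
    intro t z y y' hyy hok
    refine okat_congr C X t z _ _ (fun _ i hi => ?_) hok
    apply hρ2
    intro j l hil
    by_cases hj : j = p (blk t)
    · exfalso
      have hix : i = dataIx N (e j (o j l)) := Fin.ext (by simpa [dataIx, W] using hil)
      have hL : e j (o j l) ∈ L :=
        (mem_filter.1 (hmemG ⟨(j : ℕ) * (g + 1) + (o j l : Fin g), hidx j _ (by omega)⟩)).1
      apply ho j l (blk t) _ hj.symm
      simp only [D, mem_filter, mem_univ, true_and]
      apply hD₀ t _ hL
      rw [← hix]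
      exact hi
    · rw [hyy j hj]
  have h4 : (4 : ℕ) ^ k * 4 ^ K ≤ 16 ^ k := by
    calc (4 : ℕ) ^ k * 4 ^ K ≤ 4 ^ k * 4 ^ k := Nat.mul_le_mul_left _ (Nat.pow_le_pow_right (by norm_num) (by omega))
      _ = 16 ^ k := by rw [← mul_pow]; norm_num
  have hk3 : 1 ≤ k ^ 3 := Nat.one_le_pow _ _ hk0
  calc g ≤ 2 * 4 ^ k * m := hgm
    _ ≤ 2 * 4 ^ k * (4 ^ K * (d + 2)) := Nat.mul_le_mul_left _ hfb
    _ = 2 * (4 ^ k * 4 ^ K) * (d + 2) := by ring
    _ ≤ 2 * 16 ^ k * (d + 2) := Nat.mul_le_mul_right _ (Nat.mul_le_mul_left _ h4)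
    _ ≤ 4 * k ^ 3 * 16 ^ k * (d + r + 2) := by
        apply Nat.mul_le_mul _ (by omega)
        apply Nat.mul_le_mul_right
        omega

end Pool.Agent.W949.Nest
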