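import Mathlib

/-! # Selection of positions: windows and independent sets -/

open Finset

namespace Pool.Agent.W949.Nest

open Classical in
/-- An independent set in a graph of bounded degree. -/
lemma exists_indep {P : Type} (V : Finset P) (R : P → P → Prop) (hR : ∀ u v, R u v → R v u)
    (Δ : ℕ) (h : ∀ v ∈ V, (V.filter fun u => R v u).card ≤ Δ) :
    ∃ I ⊆ V, (∀ u ∈ I, ∀ v ∈ I, u ≠ v → ¬ R u v) ∧ V.card ≤ (Δ + 1) * I.card := by
  let F : Finset (Finset P) := V.powerset.filter fun I => ∀ u ∈ I, ∀ v ∈ I, u ≠ v → ¬ R u v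
  have hF : F.Nonempty := ⟨∅, by simp [F]⟩
  obtain ⟨I, hI, hmax⟩ := exists_max_image F card hF
  simp only [F, mem_filter, mem_powerset] at hI hmax
  refine ⟨I, hI.1, hI.2, ?_⟩
  have hcov : V ⊆ I.biUnion fun u => insert u (V.filter fun v => R u v) := by
    intro v hv
    by_contra hcon
    simp only [mem_biUnion, mem_insert, mem_filter, not_exists, not_and, not_or] at hcon
    have hvI : v ∉ I := fun h => (hcon v h).1 rfl
    have hcard := hmax (insert v I) ⟨by
      intro u hu
      rcases mem_insert.1 hu with rfl | hu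
      · exact hv
      · exact hI.1 hu, by
      intro u hu w hw huw hRuw
      rcases mem_insert.1 hu with hu' | hu' <;> rcases mem_insert.1 hw with hw' | hw'
      · exact huw (hu'.trans hw'.symm)
      · rw [hu'] at hRuw
        exact (hcon w hw').2 hv (hR _ _ hRuw)
      · rw [hw'] at hRuw
        exact (hcon u hu').2 hv hRuw
      · exact hI.2 u hu' w hw' huw hRuw⟩
    rw [card_insert_of_notMem hvI] at hcard
    omega
  calc V.card ≤ _ := card_le_card hcov
    _ ≤ ∑ u ∈ I, (insert u (V.filter fun v => R u v)).card := card_biUnion_le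
    _ ≤ ∑ _u ∈ I, (Δ + 1) := by
        refine sum_le_sum fun u hu => (card_insert_le _ _).trans ?_
        exact Nat.succ_le_succ (h u (hI.1 hu))
    _ = (Δ + 1) * I.card := by simp [mul_comm]

open Classical in
/-- Given sets `D b` of small total size, a large part of `L` avoids the sets of `Mid` and meets
every set of `Sm` in at most one element. -/
lemma select {P B : Type} [Fintype B] (L : Finset P) (D : B → Finset P) (c K : ℕ)
    (hsum : ∑ b, (D b).card ≤ c * L.card) (Mid : Finset B)
    (hmid : 4 * ∑ b ∈ Mid, (D b).card ≤ L.card) (Sm : Finset B)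
    (hsm : ∀ b ∈ Sm, (D b).card ≤ K) :
    ∃ L' ⊆ L, L.card ≤ (8 * (c * K) + 2) * L'.card ∧ (∀ b ∈ Mid, Disjoint L' (D b)) ∧
      (∀ b ∈ Sm, ∀ u ∈ L', ∀ v ∈ L', u ∈ D b → v ∈ D b → u = v) := by
  set L₁ := L \ Mid.biUnion D with hL₁
  have h1 : L.card ≤ L₁.card + ∑ b ∈ Mid, (D b).card := by
    have h2 := card_le_card_sdiff_add_card (s := L) (t := Mid.biUnion D)
    have h3 : (Mid.biUnion D).card ≤ ∑ b ∈ Mid, (D b).card := card_biUnion_le
    rw [← hL₁] at h2
    omega
  let deg : P → ℕ := fun i => ∑ b ∈ Sm.filter (fun b => i ∈ D b), (D b).card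
  have hdeg : ∑ i ∈ L₁, deg i ≤ K * c * L.card := by
    calc ∑ i ∈ L₁, deg i = ∑ i ∈ L₁, ∑ b ∈ Sm, if i ∈ D b then (D b).card else 0 := by
          refine sum_congr rfl fun i _ => ?_
          simp only [deg, sum_filter]
      _ = ∑ b ∈ Sm, ∑ i ∈ L₁, if i ∈ D b then (D b).card else 0 := sum_comm
      _ ≤ ∑ b ∈ Sm, (D b).card * K := by
          refine sum_le_sum fun b hb => ?_
          rw [← sum_filter, sum_const, smul_eq_mul]
          apply Nat.mul_le_mul _ (hsm b hb)
          apply card_le_card
          intro i hi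
          exact (mem_filter.1 hi).2
      _ ≤ ∑ b, (D b).card * K := sum_le_sum_of_subset (subset_univ _)
      _ = K * ∑ b, (D b).card := by rw [← sum_mul, mul_comm]
      _ ≤ K * (c * L.card) := Nat.mul_le_mul_left _ hsum
      _ = K * c * L.card := by ring
  set V := L₁.filter fun i => deg i ≤ 4 * (c * K) with hV
  set x := (L₁.filter fun i => ¬ deg i ≤ 4 * (c * K)).card with hx
  have hVx : V.card + x = L₁.card := card_filter_add_card_filter_not _
  have hx1 : x * (4 * (c * K) + 1) ≤ K * c * L.card := by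
    refine le_trans ?_ hdeg
    rw [hx, ← smul_eq_mul, ← sum_const]
    calc _ ≤ ∑ i ∈ L₁.filter (fun i => ¬ deg i ≤ 4 * (c * K)), deg i := by
          refine sum_le_sum fun i hi => ?_
          have := (mem_filter.1 hi).2
          omega
      _ ≤ _ := sum_le_sum_of_subset (filter_subset _ _)
  have hx2 : 4 * x ≤ L.card := by
    rcases Nat.eq_zero_or_pos (K * c) with h0 | hpos
    · have : c * K = 0 := by rw [mul_comm]; exact h0
      rw [h0, this] at hx1
      simp only [mul_zero, zero_add, mul_one, zero_mul, nonpos_iff_eq_zero] at hx1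
      rw [hx1]; simp
    · have h2 : K * c * (4 * x) ≤ K * c * L.card := by
        calc K * c * (4 * x) ≤ x * (4 * (c * K) + 1) := by nlinarith
          _ ≤ _ := hx1
      exact Nat.le_of_mul_le_mul_left h2 hpos
  have hV2 : L.card ≤ 2 * V.card := by omega
  obtain ⟨I, hIV, hI, hIc⟩ := exists_indep V (fun u v => ∃ b ∈ Sm, u ∈ D b ∧ v ∈ D b)
    (fun u v ⟨b, hb, h1, h2⟩ => ⟨b, hb, h2, h1⟩) (4 * (c * K)) (by
      intro v hv
      have h2 := (mem_filter.1 hv).2
      refine le_trans ?_ h2
      refine le_trans (card_le_card (t := (Sm.filter fun b => v ∈ D b).biUnion D) ?_)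
        card_biUnion_le
      intro u hu
      simp only [mem_filter] at hu
      obtain ⟨-, b, hb, h3, h4⟩ := hu
      exact mem_biUnion.2 ⟨b, mem_filter.2 ⟨hb, h3⟩, h4⟩)
  have hVL₁ : V ⊆ L₁ := filter_subset _ _
  refine ⟨I, (hIV.trans hVL₁).trans sdiff_subset, ?_, ?_, ?_⟩
  · calc L.card ≤ 2 * V.card := hV2
      _ ≤ 2 * ((4 * (c * K) + 1) * I.card) := Nat.mul_le_mul_left _ hIc
      _ = _ := by ring
  · intro b hb
    rw [Finset.disjoint_left]
    intro i hi hiD
    have h2 := hVL₁ (hIV hi)
    rw [hL₁, mem_sdiff] at h2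
    exact h2.2 (mem_biUnion.2 ⟨b, hb, hiD⟩)
  · intro b hb u hu v hv hub hvb
    by_contra hne
    exact hI u hu v hv hne ⟨b, hb, hub, hvb⟩

open Classical in
/-- Pigeonhole: among many disjoint windows of sizes there is one with small total size. -/
lemma window {P B : Type} [Fintype B] (D : B → Finset P) (k : ℕ → ℕ) (hk : Monotone k)
    (c Q n : ℕ) (hQ0 : 0 < Q) (hQ : 4 * c ≤ Q) (hsum : ∑ b, (D b).card ≤ c * n) :
    ∃ t < Q, 4 * ∑ b ∈ univ.filter (fun b => k t < (D b).card ∧ (D b).card < k (t + 1)),
      (D b).card ≤ n := by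
  by_contra hcon
  push Not at hcon
  have h1 : ∑ t ∈ range Q, ∑ b ∈ univ.filter (fun b => k t < (D b).card ∧
      (D b).card < k (t + 1)), (D b).card ≤ ∑ b, (D b).card := by
    calc _ = ∑ t ∈ range Q, ∑ b, if k t < (D b).card ∧ (D b).card < k (t + 1) then
          (D b).card else 0 := by
          refine sum_congr rfl fun t _ => ?_
          rw [sum_filter]
      _ = ∑ b, ∑ t ∈ range Q, if k t < (D b).card ∧ (D b).card < k (t + 1) then
          (D b).card else 0 := sum_comm
      _ ≤ ∑ b, (D b).card := by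
          refine sum_le_sum fun b _ => ?_
          rw [← sum_filter, sum_const, smul_eq_mul]
          refine le_trans (Nat.mul_le_mul_right _ ?_) (one_mul _).le
          rw [card_le_one]
          intro t ht t' ht'
          simp only [mem_filter] at ht ht'
          rcases lt_trichotomy t t' with h | h | h
          · have := hk (Nat.succ_le_of_lt h)
            simp only [Nat.succ_eq_add_one] at this
            omega
          · exact h
          · have := hk (Nat.succ_le_of_lt h)
            simp only [Nat.succ_eq_add_one] at this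
            omega
  have h2 : Q * (n + 1) ≤ 4 * ∑ t ∈ range Q, ∑ b ∈ univ.filter (fun b => k t < (D b).card ∧
      (D b).card < k (t + 1)), (D b).card := by
    rw [mul_sum]
    calc Q * (n + 1) = ∑ _t ∈ range Q, (n + 1) := by simp
      _ ≤ _ := sum_le_sum fun t ht => hcon t (mem_range.1 ht)
  have h3 : 4 * (c * n) ≤ Q * n := by
    calc 4 * (c * n) = 4 * c * n := by ring
      _ ≤ Q * n := Nat.mul_le_mul_right _ hQ
  have h4 : Q * (n + 1) = Q * n + Q := by ring
  omega

end Pool.Agent.W949.Nest
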