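import Mathlib
import Pool.Agent.W949.Nest.Vis
import Pool.Agent.W949.Nest.Select
import Pool.Agent.H468R2.Frag.Core

/-! # The levels of a circuit are made local or public one by one -/

open Finset

namespace Pool.Agent.W949.Nest

open Pool.Agent.H559R2.Sharing Pool.Agent.H468R2.Frag

variable {N q : ℕ}

/-- The gate `u` is not in `H` and feeds a gate of another module. -/
def Cross {B : Type} (C : Circuit N q) (H : Finset (Fin C.size)) (κ : Fin C.size → B)
    (u : Fin C.size) : Prop :=
  u ∉ H ∧ ∃ g, Wire C u g ∧ κ g ≠ κ u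

open Classical in
/-- A level function: it is monotone along wires outside `H` and increases at the gates which
feed another module and are not in the set `sm` of small gates. -/
structure Lev {B : Type} (C : Circuit N q) (H : Finset (Fin C.size)) (κ : Fin C.size → B)
    (sm : Fin C.size → Prop) (lev : Fin C.size → ℕ) (r o : ℕ) (x : B → ℕ) : Prop where
  mono : ∀ u g, Wire C u g → u ∉ H → g ∉ H → lev u ≤ lev g
  port : ∀ u g, Wire C u g → u ∉ H → Cross C H κ g → ¬ sm g → lev u + 1 ≤ lev g
  pos : ∀ g, Cross C H κ g → ¬ sm g → 1 ≤ lev g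
  le : ∀ g, g ∉ H → lev g ≤ r
  ports : ∀ b, (univ.filter fun g => (Cross C H κ g ∧ ¬ sm g) ∧ κ g = b).card ≤ o + x b

open Classical in
/-- The cross gates of level at most `i` which are not public see at most one live position. -/
def Loc {B : Type} (C : Circuit N q) (H : Finset (Fin C.size)) (κ : Fin C.size → B)
    (lev : Fin C.size → ℕ) (i : ℕ) (X : Finset (Fin C.size)) (L : Finset (Fin (N / 2))) : Prop :=
  ∀ p, Cross C H κ p → p ∉ X → lev p ≤ i → (L.filter fun l => Vis C X p (dataIx N l)).card ≤ 1

open Classical in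
/-- The small gates see at most one live position. -/
def SmLoc (C : Circuit N q) (sm : Fin C.size → Prop) (X : Finset (Fin C.size))
    (L : Finset (Fin (N / 2))) : Prop :=
  ∀ p, sm p → (L.filter fun l => Vis C X p (dataIx N l)).card ≤ 1

lemma SmLoc.mono {C : Circuit N q} {sm : Fin C.size → Prop} {X X' : Finset (Fin C.size)}
    {L L' : Finset (Fin (N / 2))} (h : SmLoc C sm X L) (hX : X ⊆ X') (hL : L' ⊆ L) :
    SmLoc C sm X' L' := by
  classical
  intro p hp
  refine le_trans (card_le_card ?_) (h p hp)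
  intro l hl
  rw [mem_filter] at hl ⊢
  exact ⟨hL hl.1, hl.2.anti hX⟩

/-- The source `a`, read by the block `b`, carries information on the position `l`. -/
def Carries {B : Type} (C : Circuit N q) (κ : Fin C.size → B) (lev : Fin C.size → ℕ) (i : ℕ)
    (X : Finset (Fin C.size)) (b : B) (a : Src N q C.size) (l : Fin (N / 2)) : Prop :=
  a = Sum.inl (Sum.inl (dataIx N l)) ∨
    ∃ u, a = Sum.inr u ∧ κ u ≠ b ∧ u ∉ X ∧ lev u ≤ i ∧ Vis C X u (dataIx N l)

open Classical in
/-- The live positions seen by the block `b`. -/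
noncomputable def blockSet {B : Type} (C : Circuit N q) (κ : Fin C.size → B)
    (lev : Fin C.size → ℕ) (i : ℕ) (X : Finset (Fin C.size)) (L : Finset (Fin (N / 2))) (b : B) :
    Finset (Fin (N / 2)) :=
  L.filter fun l => ∃ g, κ g = b ∧ ∃ a ∈ (C.gate g).wires, Carries C κ lev i X b a l

section

variable {B : Type} {C : Circuit N q} {H : Finset (Fin C.size)} {κ : Fin C.size → B}
  {sm : Fin C.size → Prop} {lev : Fin C.size → ℕ} {r o : ℕ} {x : B → ℕ}

open Classical in
lemma card_carries (i : ℕ) (X : Finset (Fin C.size)) (L : Finset (Fin (N / 2)))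
    (hHX : H ⊆ X) (hloc : Loc C H κ lev i X L) (g : Fin C.size) (a : Src N q C.size)
    (ha : a ∈ (C.gate g).wires) :
    (L.filter fun l => Carries C κ lev i X (κ g) a l).card ≤ 1 := by
  rcases a with (v | w) | u
  · rw [card_le_one]
    intro l hl l' hl'
    simp only [mem_filter, Carries, Sum.inl.injEq, reduceCtorEq, false_and, exists_false,
      or_false] at hl hl'
    exact dataIx_inj N (hl.2.symm.trans hl'.2)
  · rw [card_le_one]
    intro l hl l' hl'
    simp [Carries] at hl
  · by_cases hu : κ u ≠ κ g ∧ u ∉ X ∧ lev u ≤ i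
    · refine le_trans (card_le_card ?_) (hloc u ⟨fun h => hu.2.1 (hHX h), g, ha, ?_⟩ hu.2.1 hu.2.2)
      · intro l hl
        simp only [mem_filter, Carries, reduceCtorEq, Sum.inr.injEq, false_or] at hl
        obtain ⟨hl1, u', rfl, -, -, -, hv⟩ := hl
        exact mem_filter.2 ⟨hl1, hv⟩
      · exact hu.1.symm
    · rw [card_le_one]
      intro l hl l' hl'
      simp only [mem_filter, Carries, reduceCtorEq, Sum.inr.injEq, false_or] at hl
      obtain ⟨hl1, u', rfl, h1, h2, h3, hv⟩ := hl
      exact absurd ⟨h1, h2, h3⟩ hu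

lemma wires_card [DecidableEq (Src N q C.size)] (g : Fin C.size) :
    (C.gate g).wires.toFinset.card ≤ 2 := by
  refine (List.toFinset_card_le _).trans ?_
  cases C.gate g <;> simp [Gate.wires]

open Classical in
/-- The total size of the block sets is at most the number of wires. -/
lemma sum_blockSet [Fintype B] (i : ℕ) (X : Finset (Fin C.size))
    (L : Finset (Fin (N / 2))) (hHX : H ⊆ X) (hloc : Loc C H κ lev i X L) :
    ∑ b, (blockSet C κ lev i X L b).card ≤ 2 * C.size := by
  let E : Fin C.size → Finset (Fin (N / 2)) := fun g =>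
    L.filter fun l => ∃ a ∈ (C.gate g).wires, Carries C κ lev i X (κ g) a l
  have hE : ∀ g, (E g).card ≤ 2 := by
    intro g
    have hsub : E g ⊆ (C.gate g).wires.toFinset.biUnion fun a =>
        L.filter fun l => Carries C κ lev i X (κ g) a l := by
      intro l hl
      simp only [E, mem_filter] at hl
      obtain ⟨h1, a, ha, h2⟩ := hl
      exact mem_biUnion.2 ⟨a, List.mem_toFinset.2 ha, mem_filter.2 ⟨h1, h2⟩⟩
    refine (card_le_card hsub).trans (card_biUnion_le.trans ?_)
    refine le_trans (sum_le_sum (g := fun _ => 1) fun a ha => ?_) ?_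
    · exact card_carries i X L hHX hloc g a (List.mem_toFinset.1 ha)
    · rw [sum_const, smul_eq_mul, mul_one]
      exact wires_card g
  have h1 : ∀ b, (blockSet C κ lev i X L b).card ≤
      ∑ g ∈ univ.filter (fun g => κ g = b), (E g).card := by
    intro b
    refine le_trans (card_le_card ?_) card_biUnion_le
    intro l hl
    simp only [blockSet, mem_filter] at hl
    obtain ⟨h1, g, rfl, a, ha, h2⟩ := hl
    simp only [mem_biUnion, mem_filter, mem_univ, true_and, E]
    exact ⟨g, rfl, h1, a, ha, h2⟩
  calc ∑ b, (blockSet C κ lev i X L b).card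
      ≤ ∑ b, ∑ g ∈ univ.filter (fun g => κ g = b), (E g).card := sum_le_sum fun b _ => h1 b
    _ = ∑ g, (E g).card := by rw [← sum_fiberwise (s := univ) (g := κ)]
    _ ≤ ∑ _g : Fin C.size, 2 := sum_le_sum fun g _ => hE g
    _ = 2 * C.size := by simp [mul_comm]

open Classical in
/-- A block sees at most as many positions as it reads sources. -/
lemma blockSet_le_reads (i : ℕ) (X : Finset (Fin C.size)) (L : Finset (Fin (N / 2)))
    (hHX : H ⊆ X) (hloc : Loc C H κ lev i X L) (b : B) :
    (blockSet C κ lev i X L b).card ≤ (moduleSources C κ b).card := by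
  have hsub : blockSet C κ lev i X L b ⊆ (moduleSources C κ b).biUnion fun a =>
      L.filter fun l => Carries C κ lev i X b a l := by
    intro l hl
    simp only [blockSet, mem_filter] at hl
    obtain ⟨h1, g, hg, a, ha, h2⟩ := hl
    refine mem_biUnion.2 ⟨a, ?_, mem_filter.2 ⟨h1, h2⟩⟩
    simp only [moduleSources, mem_filter, mem_univ, true_and]
    refine ⟨⟨g, hg, ha⟩, ?_⟩
    rintro u rfl
    rcases h2 with h2 | ⟨u', h2, h3, -⟩
    · simp at h2
    · rw [Sum.inr.injEq] at h2
      rw [h2]
      exact h3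
  refine (card_le_card hsub).trans (card_biUnion_le.trans ?_)
  refine le_trans (sum_le_sum (g := fun _ => 1) fun a ha => ?_) ?_
  · simp only [moduleSources, mem_filter, mem_univ, true_and] at ha
    obtain ⟨⟨g, rfl, hg⟩, -⟩ := ha
    exact card_carries i X L hHX hloc g a hg
  · rw [sum_const, smul_eq_mul, mul_one]

/-- If the sources of `g` have level at most `i`, then the block of `g` sees all live positions
visible from `g`. -/
lemma mem_blockSet (hL : Lev C H κ sm lev r o x) (i : ℕ) (X : Finset (Fin C.size))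
    (L : Finset (Fin (N / 2))) (hHX : H ⊆ X) (l : Fin (N / 2)) (hl : l ∈ L) (g : Fin C.size)
    (v : Fin N) (h : Vis C X g v) (hv : v = dataIx N l)
    (hg : ∀ u, Wire C u g → u ∉ X → lev u ≤ i) : l ∈ blockSet C κ lev i X L (κ g) := by
  classical
  induction h with
  | var g v h =>
    simp only [blockSet, mem_filter]
    refine ⟨hl, g, rfl, _, h, Or.inl ?_⟩
    rw [hv]
  | gate g u v h hu h' ih =>
    by_cases hκ : κ u = κ g
    · rw [← hκ]
      apply ih hv
      intro u' hu' hu'X
      have h1 := hL.mono u' u hu' (fun h => hu'X (hHX h)) (fun h => hu (hHX h))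
      exact h1.trans (hg u h hu)
    · simp only [blockSet, mem_filter]
      refine ⟨hl, g, rfl, _, h, Or.inr ⟨u, rfl, hκ, hu, hg u h hu, ?_⟩⟩
      rw [← hv]
      exact h'

open Classical in
/-- One level. -/
lemma level_step [Fintype B] (hL : Lev C H κ sm lev r o x) (e : ℕ) (hx : ∑ b, x b ≤ e) (i : ℕ)
    (X : Finset (Fin C.size)) (L : Finset (Fin (N / 2))) (hHX : H ⊆ X)
    (hloc : Loc C H κ lev i X L) (hsmL : SmLoc C sm X L) (c : ℕ)
    (hc : 2 * C.size ≤ c * L.card) (k : ℕ → ℕ) (hk : Monotone k) (Q : ℕ) (hQ0 : 0 < Q)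
    (hQ : 4 * c ≤ Q) :
    ∃ t < Q, ∃ (X' : Finset (Fin C.size)) (L' : Finset (Fin (N / 2))), X ⊆ X' ∧ L' ⊆ L ∧
      L.card ≤ (8 * (c * k t) + 2) * L'.card ∧
      X'.card * k (t + 1) ≤ X.card * k (t + 1) + o * (c * L.card) + e * k (t + 1) ∧
      Loc C H κ lev (i + 1) X' L' := by
  set D := blockSet C κ lev i X L with hD
  have hsum : ∑ b, (D b).card ≤ c * L.card := (sum_blockSet i X L hHX hloc).trans hc
  obtain ⟨t, ht, hwin⟩ := window D k hk c Q L.card hQ0 hQ hsum
  obtain ⟨L', hL'L, hL'1, hL'2, hL'3⟩ := select L D c (k t) hsum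
    (univ.filter (fun b => k t < (D b).card ∧ (D b).card < k (t + 1))) hwin
    (univ.filter (fun b => (D b).card ≤ k t)) (by
      intro b hb
      exact (mem_filter.1 hb).2)
  set new : Finset (Fin C.size) :=
    univ.filter fun p => (Cross C H κ p ∧ ¬ sm p) ∧ k (t + 1) ≤ (D (κ p)).card with hnew
  have hnewc : new.card * k (t + 1) ≤ o * (c * L.card) + e * k (t + 1) := by
    have h1 : new.card ≤ ∑ b ∈ univ.filter (fun b => k (t + 1) ≤ (D b).card), (o + x b) := by
      have h2 : new ⊆ (univ.filter (fun b => k (t + 1) ≤ (D b).card)).biUnion fun b =>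
          univ.filter fun g => (Cross C H κ g ∧ ¬ sm g) ∧ κ g = b := by
        intro p hp
        simp only [hnew, mem_filter, mem_univ, true_and] at hp
        exact mem_biUnion.2 ⟨κ p, mem_filter.2 ⟨mem_univ _, hp.2⟩,
          mem_filter.2 ⟨mem_univ _, hp.1, rfl⟩⟩
      refine (card_le_card h2).trans (card_biUnion_le.trans ?_)
      exact sum_le_sum fun b _ => hL.ports b
    have h1' : ∑ b ∈ univ.filter (fun b => k (t + 1) ≤ (D b).card), x b ≤ e :=
      (sum_le_sum_of_subset (filter_subset _ _)).trans hx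
    rw [sum_add_distrib, sum_const, smul_eq_mul] at h1
    have h3 : (univ.filter (fun b => k (t + 1) ≤ (D b).card)).card * k (t + 1) ≤
        c * L.card := by
      refine le_trans ?_ hsum
      rw [← smul_eq_mul, ← sum_const]
      calc _ ≤ ∑ b ∈ univ.filter (fun b => k (t + 1) ≤ (D b).card), (D b).card :=
            sum_le_sum fun b hb => (mem_filter.1 hb).2
        _ ≤ _ := sum_le_sum_of_subset (filter_subset _ _)
    calc new.card * k (t + 1) ≤
        ((univ.filter (fun b => k (t + 1) ≤ (D b).card)).card * o + e) * k (t + 1) :=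
          Nat.mul_le_mul_right _ (h1.trans (Nat.add_le_add_left h1' _))
      _ = o * ((univ.filter (fun b => k (t + 1) ≤ (D b).card)).card * k (t + 1)) +
          e * k (t + 1) := by ring
      _ ≤ o * (c * L.card) + e * k (t + 1) := Nat.add_le_add_right (Nat.mul_le_mul_left _ h3) _
  refine ⟨t, ht, X ∪ new, L', subset_union_left, hL'L, hL'1, ?_, ?_⟩
  · calc (X ∪ new).card * k (t + 1) ≤ (X.card + new.card) * k (t + 1) :=
          Nat.mul_le_mul_right _ (card_union_le _ _)
      _ = X.card * k (t + 1) + new.card * k (t + 1) := by ring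
      _ ≤ X.card * k (t + 1) + (o * (c * L.card) + e * k (t + 1)) :=
          Nat.add_le_add_left hnewc _
      _ = _ := by ring
  · intro p hp hpX hpi
    by_cases hsp : sm p
    · exact hsmL.mono subset_union_left hL'L p hsp
    have hpX1 : p ∉ X := fun h => hpX (mem_union_left _ h)
    have hpn : p ∉ new := fun h => hpX (mem_union_right _ h)
    have hsub : (L'.filter fun l => Vis C (X ∪ new) p (dataIx N l)) ⊆
        L'.filter fun l => Vis C X p (dataIx N l) := by
      intro l hl
      rw [mem_filter] at hl ⊢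
      exact ⟨hl.1, hl.2.anti subset_union_left⟩
    refine (card_le_card hsub).trans ?_
    rcases Nat.lt_or_ge (lev p) (i + 1) with hlt | hge
    · refine le_trans (card_le_card ?_) (hloc p hp hpX1 (by omega))
      exact filter_subset_filter _ hL'L
    · have hsub2 : ∀ l ∈ L', Vis C X p (dataIx N l) → l ∈ D (κ p) := by
        intro l hl hv
        refine mem_blockSet hL i X L hHX l (hL'L hl) p _ hv rfl ?_
        intro u hu huX
        have := hL.port u p hu (fun h => huX (hHX h)) hp hsp
        omega
      have hlt : (D (κ p)).card < k (t + 1) := by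
        by_contra hcon
        exact hpn (mem_filter.2 ⟨mem_univ _, ⟨hp, hsp⟩, not_lt.1 hcon⟩)
      rw [card_le_one]
      intro l hl l' hl'
      rw [mem_filter] at hl hl'
      rcases Nat.lt_or_ge (k t) (D (κ p)).card with h1 | h1
      · have h2 := hL'2 (κ p) (mem_filter.2 ⟨mem_univ _, h1, hlt⟩)
        rw [Finset.disjoint_left] at h2
        exact absurd (hsub2 l hl.1 hl.2) (h2 hl.1)
      · exact hL'3 (κ p) (mem_filter.2 ⟨mem_univ _, h1⟩) l hl.1 l' hl'.1 (hsub2 l hl.1 hl.2)
          (hsub2 l' hl'.1 hl'.2)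

end

/-- All levels: the constants depend only on the number of levels, not on the circuit. -/
theorem all_levels (j : ℕ) : ∀ (c o : ℕ) (g : ℕ → ℕ), Monotone g → ∃ A, 1 ≤ A ∧
    ∀ {N q : ℕ} {B : Type} [Fintype B] (C : Circuit N q) (H : Finset (Fin C.size))
      (κ : Fin C.size → B) (sm : Fin C.size → Prop) (lev : Fin C.size → ℕ) (r : ℕ) (x : B → ℕ)
      (e : ℕ), Lev C H κ sm lev r o x → ∑ b, x b ≤ e →
      ∀ (i : ℕ) (X : Finset (Fin C.size)) (L : Finset (Fin (N / 2))), H ⊆ X →
        Loc C H κ lev i X L → SmLoc C sm X L → 2 * C.size ≤ c * L.card →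
        ∃ (X' : Finset (Fin C.size)) (L' : Finset (Fin (N / 2))) (a : ℕ), X ⊆ X' ∧ L' ⊆ L ∧
          1 ≤ a ∧ a ≤ A ∧ L.card ≤ a * L'.card ∧
          X'.card * g a ≤ X.card * g a + L.card + j * (e * g a) ∧
          Loc C H κ lev (i + j) X' L' := by
  induction j with
  | zero =>
    intro c o g _
    refine ⟨1, le_rfl, ?_⟩
    intro N q B _ C H κ sm lev r x e hL hx i X L hHX hloc hsm hc
    exact ⟨X, L, 1, Subset.rfl, Subset.rfl, le_rfl, le_rfl, by omega, by omega, hloc⟩
  | succ j ih =>
    intro c o g hg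
    have ih' : ∀ K : ℕ, ∃ A, 1 ≤ A ∧
        ∀ {N q : ℕ} {B : Type} [Fintype B] (C : Circuit N q) (H : Finset (Fin C.size))
          (κ : Fin C.size → B) (sm : Fin C.size → Prop) (lev : Fin C.size → ℕ) (r : ℕ)
          (x : B → ℕ) (e : ℕ), Lev C H κ sm lev r o x → ∑ b, x b ≤ e →
          ∀ (i : ℕ) (X : Finset (Fin C.size)) (L : Finset (Fin (N / 2))), H ⊆ X →
            Loc C H κ lev i X L → SmLoc C sm X L →
            2 * C.size ≤ (c * (8 * (c * K) + 2)) * L.card →
            ∃ (X' : Finset (Fin C.size)) (L' : Finset (Fin (N / 2))) (a : ℕ), X ⊆ X' ∧ L' ⊆ L ∧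
              1 ≤ a ∧ a ≤ A ∧ L.card ≤ a * L'.card ∧
              X'.card * (2 * g ((8 * (c * K) + 2) * a)) ≤
                X.card * (2 * g ((8 * (c * K) + 2) * a)) + L.card +
                  j * (e * (2 * g ((8 * (c * K) + 2) * a))) ∧
              Loc C H κ lev (i + j) X' L' := by
      intro K
      exact ih (c * (8 * (c * K) + 2)) o (fun a => 2 * g ((8 * (c * K) + 2) * a))
        (fun a b hab => Nat.mul_le_mul_left _ (hg (Nat.mul_le_mul_left _ hab)))
    choose A' hA'1 hA' using ih'
    let st : ℕ → ℕ := fun y => y + 2 * (o * (c * g ((8 * (c * y) + 2) * A' y))) + 1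
    let k : ℕ → ℕ := fun t => st^[t] 0
    have hks : ∀ t, k (t + 1) = st (k t) := fun t => Function.iterate_succ_apply' st t 0
    have hk : Monotone k := by
      apply monotone_nat_of_le_succ
      intro t
      rw [hks]
      simp only [st]
      omega
    refine ⟨∑ t ∈ range (4 * c + 1), (8 * (c * k t) + 2) * A' (k t), ?_, ?_⟩
    · refine le_trans ?_ (single_le_sum (f := fun t => (8 * (c * k t) + 2) * A' (k t))
        (fun _ _ => Nat.zero_le _) (mem_range.2 (Nat.succ_pos _)))
      have := hA'1 (k 0)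
      exact Nat.one_le_iff_ne_zero.2 (Nat.mul_ne_zero (by omega) (by omega))
    intro N q B _ C H κ sm lev r x e hL hx i X L hHX hloc hsm hc
    obtain ⟨t, ht, X₁, L₁, hXX₁, hL₁L, hcard₁, hpub₁, hloc₁⟩ :=
      level_step hL e hx i X L hHX hloc hsm c hc k hk (4 * c + 1) (Nat.succ_pos _)
        (Nat.le_succ _)
    have hc₁ : 2 * C.size ≤ (c * (8 * (c * k t) + 2)) * L₁.card := by
      calc 2 * C.size ≤ c * L.card := hc
        _ ≤ c * ((8 * (c * k t) + 2) * L₁.card) := Nat.mul_le_mul_left _ hcard₁
        _ = _ := by ring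
    obtain ⟨X', L', a', hX₁X', hL'L₁, ha'1, ha'A, hcard', hpub', hloc'⟩ :=
      hA' (k t) C H κ sm lev r x e hL hx (i + 1) X₁ L₁ (hHX.trans hXX₁) hloc₁
        (hsm.mono hXX₁ hL₁L) hc₁
    set a := (8 * (c * k t) + 2) * a' with ha
    have haA : a ≤ (8 * (c * k t) + 2) * A' (k t) := Nat.mul_le_mul_left _ ha'A
    refine ⟨X', L', a, hXX₁.trans hX₁X', hL'L₁.trans hL₁L, ?_, ?_, ?_, ?_, ?_⟩
    · exact Nat.one_le_iff_ne_zero.2 (Nat.mul_ne_zero (by omega) (by omega))
    · refine haA.trans ?_
      exact single_le_sum (f := fun t => (8 * (c * k t) + 2) * A' (k t))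
        (fun _ _ => Nat.zero_le _) (mem_range.2 ht)
    · calc L.card ≤ (8 * (c * k t) + 2) * L₁.card := hcard₁
        _ ≤ (8 * (c * k t) + 2) * (a' * L'.card) := Nat.mul_le_mul_left _ hcard'
        _ = a * L'.card := by rw [ha]; ring
    · -- the number of public gates
      obtain ⟨d₁, hd₁⟩ := Nat.exists_eq_add_of_le (card_le_card hXX₁)
      obtain ⟨d₂, hd₂⟩ := Nat.exists_eq_add_of_le (card_le_card hX₁X')
      have hL₁c : L₁.card ≤ L.card := card_le_card hL₁L
      have e1 : d₂ * (2 * g a) ≤ L.card + j * (e * (2 * g a)) := by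
        rw [hd₂, add_mul] at hpub'
        omega
      have e2 : d₁ * (2 * g a) ≤ L.card + e * (2 * g a) := by
        rcases Nat.lt_or_ge d₁ e with hde | hde
        · have : d₁ * (2 * g a) ≤ e * (2 * g a) := Nat.mul_le_mul_right _ hde.le
          omega
        obtain ⟨d, hd⟩ := Nat.exists_eq_add_of_le hde
        suffices hs : d * (2 * g a) ≤ L.card by
          rw [hd, add_mul]
          omega
        rw [hd₁, hd] at hpub₁
        have e3 : d * k (t + 1) ≤ o * (c * L.card) := by
          have h1 : (X.card + (e + d)) * k (t + 1) =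
              X.card * k (t + 1) + e * k (t + 1) + d * k (t + 1) := by ring
          omega
        have e4 : 2 * (o * (c * g a)) + 1 ≤ k (t + 1) := by
          rw [hks]
          have : g a ≤ g ((8 * (c * k t) + 2) * A' (k t)) := hg haA
          have : o * (c * g a) ≤ o * (c * g ((8 * (c * k t) + 2) * A' (k t))) :=
            Nat.mul_le_mul_left _ (Nat.mul_le_mul_left _ this)
          simp only [st]
          omega
        have e5 : d * (2 * (o * (c * g a)) + 1) ≤ o * (c * L.card) :=
          (Nat.mul_le_mul_left _ e4).trans e3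
        rcases Nat.eq_zero_or_pos (o * c) with h0 | hpos
        · have h1 : o * (c * L.card) = 0 := by rw [← mul_assoc, h0, zero_mul]
          rw [h1] at e5
          have : d = 0 := by
            rcases Nat.mul_eq_zero.1 (Nat.le_zero.1 e5) with h | h
            · exact h
            · omega
          rw [this]; simp
        · have e6 : o * c * (d * (2 * g a)) ≤ o * c * L.card := by
            calc o * c * (d * (2 * g a)) = d * (2 * (o * (c * g a))) := by ring
              _ ≤ d * (2 * (o * (c * g a)) + 1) := Nat.mul_le_mul_left _ (Nat.le_succ _)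
              _ ≤ o * (c * L.card) := e5
              _ = o * c * L.card := by ring
          exact Nat.le_of_mul_le_mul_left e6 hpos
      have e7 : 2 * (X'.card * g a) ≤
          2 * (X.card * g a + L.card + (j + 1) * (e * g a)) := by
        rw [hd₂, hd₁]
        calc 2 * ((X.card + d₁ + d₂) * g a) =
            2 * (X.card * g a) + (d₁ * (2 * g a) + d₂ * (2 * g a)) := by ring
          _ ≤ 2 * (X.card * g a) +
              ((L.card + e * (2 * g a)) + (L.card + j * (e * (2 * g a)))) := by omega
          _ = _ := by ring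
      omega
    · have : i + (j + 1) = i + 1 + j := by ring
      rw [this]
      exact hloc'

end Pool.Agent.W949.Nest
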