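import Mathlib
import Pool.Agent.W949.Nest.Levels
import Pool.Agent.W949.Nest.FinalBound

/-! # The superlinear lower bound for nested modules, in terms of levels -/

open Finset

namespace Pool.Agent.W949.Nest

open Pool.Agent.H559R2.Sharing Pool.Agent.H468R2.Frag

lemma Vis.reads {N q : ℕ} {C : Circuit N q} {X : Finset (Fin C.size)} {g : Fin C.size}
    {i : Fin N} (h : Vis C X g i) : C.Reads g (Sum.inl i) := by
  induction h with
  | var g i h => exact .var g _ h
  | gate g u i h hu _ ih => exact .gate g u _ h ih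

open Classical in
lemma card_vis_le {N q : ℕ} (C : Circuit N q) (X : Finset (Fin C.size)) (g : Fin C.size) :
    (univ.filter fun l : Fin (N / 2) => Vis C X g (dataIx N l)).card ≤ (C.supp g).card := by
  apply card_le_card_of_injOn (fun l => Sum.inl (dataIx N l))
  · intro l hl
    have h1 := (mem_filter.1 (mem_coe.1 hl)).2
    rw [mem_coe, Circuit.supp, mem_filter]
    exact ⟨mem_univ _, h1.reads⟩
  · intro l _ l' _ h
    exact dataIx_inj N (Sum.inl_injective h)

/-- A large set of positions such that every small gate sees at most one of them. -/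
lemma exists_smLoc {N q : ℕ} (C : Circuit N q) (H : Finset (Fin C.size))
    (sm : Fin C.size → Prop) (K c : ℕ) (hsm : ∀ g, sm g → (C.supp g).card ≤ K)
    (hs : K * C.size ≤ c * (N / 2)) :
    ∃ L : Finset (Fin (N / 2)), N / 2 ≤ (8 * (c * K) + 2) * L.card ∧ SmLoc C sm H L := by
  classical
  let D : Fin C.size → Finset (Fin (N / 2)) := fun g =>
    if sm g then univ.filter fun l => Vis C H g (dataIx N l) else ∅
  have hD : ∀ g, (D g).card ≤ K := by
    intro g
    by_cases h : sm g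
    · simp only [D, if_pos h]
      exact (card_vis_le C H g).trans (hsm g h)
    · simp [D, h]
  obtain ⟨L, -, h1, -, h2⟩ := select (univ : Finset (Fin (N / 2))) D c K (by
    calc ∑ b, (D b).card ≤ ∑ _b : Fin C.size, K := sum_le_sum fun b _ => hD b
      _ = K * C.size := by simp [mul_comm]
      _ ≤ c * (N / 2) := hs
      _ = _ := by simp) ∅ (by simp) univ (fun b _ => hD b)
  refine ⟨L, by simpa using h1, ?_⟩
  intro p hp
  rw [card_le_one]
  intro l hl l' hl'
  rw [mem_filter] at hl hl'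
  refine h2 p (mem_univ _) l hl.1 l' hl'.1 ?_ ?_
  · simp only [D, if_pos hp, mem_filter, mem_univ, true_and]
    exact hl.2
  · simp only [D, if_pos hp, mem_filter, mem_univ, true_and]
    exact hl'.2

/-- The engine: circuits for the explicit function whose gates outside a small set `H` are
arranged in modules with few ports, nested at most `r` times, have superlinear size. -/
theorem engine (c r o K : ℕ) : ∃ E n₀ : ℕ, 0 < E ∧
    ∀ {N q : ℕ} {B : Type} [Fintype B] (C : Circuit N q) (H : Finset (Fin C.size))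
      (κ : Fin C.size → B) (sm : Fin C.size → Prop) (lev : Fin C.size → ℕ) (x : B → ℕ),
      n₀ ≤ N → C.Computes (gipFun N) → (∀ g, sm g → (C.supp g).card ≤ K) →
      Lev C H κ sm lev r o x → E * ∑ b, x b ≤ C.size →
      (∀ b, (moduleSources C κ b).card ≤ N / E) →
      E * q ≤ N → E * H.card ≤ N → c * N < C.size := by
  classical
  obtain ⟨M₀, hM₀⟩ : ∃ M₀, M₀ = 8 * (3 * K * c * K) + 2 := ⟨_, rfl⟩
  have hM₀1 : 1 ≤ M₀ := by omega
  obtain ⟨c₁, hc₁⟩ : ∃ c₁, c₁ = 6 * c * M₀ := ⟨_, rfl⟩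
  obtain ⟨Pf, hPf⟩ : ∃ Pf : ℕ → ℕ, ∀ a, Pf a = 2 ^ (13 * (2 * c₁ * a + 2)) := ⟨_, fun _ => rfl⟩
  have hPmono : Monotone Pf := by
    intro a b hab
    rw [hPf, hPf]
    apply Nat.pow_le_pow_right (by norm_num)
    have : 2 * c₁ * a ≤ 2 * c₁ * b := Nat.mul_le_mul_left _ hab
    omega
  obtain ⟨A, hA1, hA⟩ := all_levels r c₁ o (fun a => 8 * a * Pf a) (by
    intro a b hab
    exact Nat.mul_le_mul (Nat.mul_le_mul_left _ hab) (hPmono hab))
  have hPpos : ∀ a, 1 ≤ Pf a := by
    intro a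
    rw [hPf]
    exact Nat.one_le_two_pow
  obtain ⟨E₀, hE₀⟩ : ∃ E₀, E₀ = 48 * M₀ * A * Pf A := ⟨_, rfl⟩
  have hE0 : 0 < E₀ := by
    rw [hE₀]
    exact Nat.mul_pos (Nat.mul_pos (Nat.mul_pos (by norm_num) hM₀1) hA1) (hPpos A)
  refine ⟨E₀ * (r * c + 1), E₀ + 2, Nat.mul_pos hE0 (Nat.succ_pos _), ?_⟩
  intro N q B _ C H κ sm lev x hN hC hsm hL hx hreads hq hH
  by_contra hcon
  push Not at hcon
  generalize hE : E₀ * (r * c + 1) = E at hx hreads hq hH
  obtain ⟨n, hn⟩ : ∃ n, n = N / 2 := ⟨_, rfl⟩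
  have hN3 : N ≤ 3 * n := by omega
  have hsz₀ : C.size ≤ 3 * c * n := by
    calc C.size ≤ c * N := hcon
      _ ≤ c * (3 * n) := by gcongr
      _ = 3 * c * n := by ring
  obtain ⟨L₀, hL₀, hsmL₀⟩ := exists_smLoc C H sm K (3 * K * c) hsm (by
    calc K * C.size ≤ K * (3 * c * n) := Nat.mul_le_mul_left _ hsz₀
      _ = 3 * K * c * (N / 2) := by rw [hn]; ring)
  replace hL₀ : n ≤ M₀ * L₀.card := by
    rw [hn, hM₀]
    exact hL₀
  have hsz : 2 * C.size ≤ c₁ * L₀.card := by
    calc 2 * C.size ≤ 2 * (3 * c * n) := Nat.mul_le_mul_left _ hsz₀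
      _ ≤ 2 * (3 * c * (M₀ * L₀.card)) := by gcongr
      _ = c₁ * L₀.card := by rw [hc₁]; ring
  obtain ⟨e, he⟩ : ∃ e, e = ∑ b, x b := ⟨_, rfl⟩
  rw [← he] at hx
  obtain ⟨X', L', a, hHX', -, ha1, haA, hcard, hpub, hloc⟩ :=
    hA C H κ sm lev r x e hL he.ge 0 H L₀ Subset.rfl (by
      intro p hp _ hp0
      by_cases hsp : sm p
      · exact hsmL₀ p hsp
      · have := hL.pos p hp hsp
        omega) hsmL₀ hsz
  rw [zero_add] at hloc
  obtain ⟨l, hl⟩ : ∃ l, l = L'.card := ⟨_, rfl⟩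
  obtain ⟨P, hP⟩ : ∃ P, P = Pf a := ⟨_, rfl⟩
  rw [← hl] at hcard
  rw [← hP] at hpub
  have hPA : P ≤ Pf A := by
    rw [hP]
    exact hPmono haA
  have hP1 : 1 ≤ P := by
    rw [hP]
    exact hPpos a
  -- the bound
  have hbound : l ≤ P * (X'.card + q + N / E + 1) := by
    have h := final_bound C hC X' L' κ (blockSet C κ lev r X' L') (by
      intro g i hi hv
      exact mem_blockSet hL r X' L' hHX' i hi g _ hv rfl
        (fun u _ hu => hL.le u (fun h => hu (hHX' h)))) (2 * C.size) (N / E) (2 * c₁ * a + 1)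
      (by omega) (sum_blockSet r X' L' hHX' hloc)
      (fun b => (blockSet_le_reads r X' L' hHX' hloc b).trans (hreads b)) (by
        rw [← hl]
        calc 2 * (2 * C.size) ≤ 2 * (c₁ * (a * l)) := by
              have : c₁ * L₀.card ≤ c₁ * (a * l) := Nat.mul_le_mul_left _ hcard
              omega
          _ = (2 * c₁ * a) * l := by ring
          _ ≤ (2 * c₁ * a + 1 + 1) ^ 2 * l := by
              apply Nat.mul_le_mul_right
              nlinarith)
    rw [← hl] at h
    rw [hP, hPf]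
    exact h
  -- arithmetic
  have h3A : N ≤ 3 * M₀ * A * l := by
    calc N ≤ 3 * n := hN3
      _ ≤ 3 * (M₀ * L₀.card) := Nat.mul_le_mul_left _ hL₀
      _ ≤ 3 * (M₀ * (a * l)) := by gcongr
      _ ≤ 3 * (M₀ * (A * l)) := by gcongr
      _ = _ := by ring
  have key : ∀ y : ℕ, E₀ * y ≤ N → 16 * (P * y) ≤ l := by
    intro y hy
    have h1 : 3 * M₀ * A * (16 * (P * y)) ≤ 3 * M₀ * A * l := by
      calc 3 * M₀ * A * (16 * (P * y)) = 48 * M₀ * A * P * y := by ring
        _ ≤ 48 * M₀ * A * Pf A * y := by gcongr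
        _ ≤ N := by rw [← hE₀]; exact hy
        _ ≤ 3 * M₀ * A * l := h3A
    exact Nat.le_of_mul_le_mul_left h1 (Nat.mul_pos (by omega) (by omega))
  have hE₀E : E₀ ≤ E := by
    rw [← hE]
    exact Nat.le_mul_of_pos_right _ (Nat.succ_pos _)
  have k1 := key H.card ((Nat.mul_le_mul_right _ hE₀E).trans hH)
  have k2 := key q ((Nat.mul_le_mul_right _ hE₀E).trans hq)
  have k3 := key (N / E) ((Nat.mul_le_mul_right _ hE₀E).trans (Nat.mul_div_le N E))
  have k4 := key 1 (by omega)
  have k6 := key (r * e) (by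
    have h1 : (r * c + 1) * (E₀ * (r * e)) ≤ (r * c + 1) * N := by
      calc (r * c + 1) * (E₀ * (r * e)) = r * (E * e) := by rw [← hE]; ring
        _ ≤ r * (c * N) := Nat.mul_le_mul_left _ (hx.trans hcon)
        _ = r * c * N := by ring
        _ ≤ (r * c + 1) * N := Nat.mul_le_mul_right _ (Nat.le_succ _)
    exact Nat.le_of_mul_le_mul_left h1 (Nat.succ_pos _))
  have k5 : 16 * (P * X'.card) ≤ 4 * l := by
    have h1 : a * (8 * (P * X'.card)) ≤ a * (8 * (P * H.card) + l + 8 * (P * (r * e))) := by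
      calc a * (8 * (P * X'.card)) = X'.card * (8 * a * P) := by ring
        _ ≤ H.card * (8 * a * P) + L₀.card + r * (e * (8 * a * P)) := hpub
        _ ≤ H.card * (8 * a * P) + a * l + r * (e * (8 * a * P)) := by gcongr
        _ = _ := by ring
    have h2 := Nat.le_of_mul_le_mul_left h1 (by omega)
    omega
  have h5 : 16 * l ≤ 7 * l := by
    calc 16 * l ≤ 16 * (P * (X'.card + q + N / E + 1)) := Nat.mul_le_mul_left _ hbound
      _ = 16 * (P * X'.card) + 16 * (P * q) + 16 * (P * (N / E)) + 16 * (P * 1) := by ring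
      _ ≤ 4 * l + l + l + l := by omega
      _ = 7 * l := by ring
  omega

end Pool.Agent.W949.Nest
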