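import Mathlib
import Pool.Agent.W949.Nest.Levels

/-! # Levels from paths, and cutting the trees of a circuit into pieces -/

open Finset

namespace Pool.Agent.W949.Nest

open Pool.Agent.H559R2.Sharing Pool.Agent.H468R2.Frag

variable {N q : ℕ}

open Classical in
/-- A bound on the number of ports on paths gives a level function. -/
lemma exists_lev {B : Type} (C : Circuit N q) (H : Finset (Fin C.size)) (κ : Fin C.size → B)
    (sm : Fin C.size → Prop) (r o : ℕ) (x : B → ℕ)
    (hdepth : ∀ l, IsPath C H l → (l.filter fun g => Cross C H κ g ∧ ¬ sm g).length ≤ r)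
    (hports : ∀ b, (univ.filter fun g => (Cross C H κ g ∧ ¬ sm g) ∧ κ g = b).card ≤ o + x b) :
    ∃ lev, Lev C H κ sm lev r o x := by
  obtain ⟨lev, hlev⟩ := exists_fixed (τ := ℕ) (s := C.size)
    (fun g v => (if Cross C H κ g ∧ ¬ sm g then 1 else 0) +
      (univ.filter fun u => Wire C u g ∧ u ∉ H).sup v) (by
    intro g v v' h
    congr 1
    apply sup_congr rfl
    intro u hu
    exact h u (C.acyclic g u (mem_filter.1 hu).2.1))
  have hle : ∀ u g, Wire C u g → u ∉ H →
      lev u ≤ (univ.filter fun u => Wire C u g ∧ u ∉ H).sup lev := by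
    intro u g h hu
    exact le_sup (f := lev) (mem_filter.2 ⟨mem_univ _, h, hu⟩)
  refine ⟨lev, ?_, ?_, ?_, ?_, hports⟩
  · intro u g h hu _
    rw [hlev g]
    exact (hle u g h hu).trans (Nat.le_add_left _ _)
  · intro u g h hu hp hsp
    rw [hlev g, if_pos ⟨hp, hsp⟩]
    have := hle u g h hu
    omega
  · intro g hp hsp
    rw [hlev g, if_pos ⟨hp, hsp⟩]
    omega
  · have key : ∀ k : ℕ, ∀ g : Fin C.size, g.val < k → g ∉ H →
        ∃ l, (g :: l).IsChain (fun a b => Wire C b a) ∧ (∀ x ∈ g :: l, x ∉ H) ∧
          ((g :: l).filter fun g => Cross C H κ g ∧ ¬ sm g).length = lev g := by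
      intro k
      induction k with
      | zero => intro g hg; exact absurd hg (Nat.not_lt_zero _)
      | succ k ih =>
        intro g hg hgH
        rcases (univ.filter fun u => Wire C u g ∧ u ∉ H).eq_empty_or_nonempty with h0 | hne
        · refine ⟨[], List.isChain_singleton _, ?_, ?_⟩
          · intro x hx
            rw [List.mem_singleton] at hx
            rw [hx]
            exact hgH
          · rw [hlev g, h0]
            by_cases hp : Cross C H κ g ∧ ¬ sm g <;> simp [hp]
        · obtain ⟨u, hu, hsup⟩ := exists_mem_eq_sup _ hne lev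
          rw [mem_filter] at hu
          have hlt : u.val < g.val := C.acyclic g u hu.2.1
          obtain ⟨l, h1, h2, h3⟩ := ih u (by omega) hu.2.2
          refine ⟨u :: l, ?_, ?_, ?_⟩
          · exact List.IsChain.cons_cons hu.2.1 h1
          · intro x hx
            rcases List.mem_cons.1 hx with rfl | hx
            · exact hgH
            · exact h2 x hx
          · rw [hlev g, hsup, ← h3]
            by_cases hp : Cross C H κ g ∧ ¬ sm g
            · rw [List.filter_cons_of_pos (by simpa using hp), List.length_cons, if_pos hp,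
                add_comm]
            · rw [List.filter_cons_of_neg (by simpa using hp), if_neg hp, zero_add]
    intro g hg
    obtain ⟨l, h1, h2, h3⟩ := key (g.val + 1) g (Nat.lt_succ_self _) hg
    rw [← h3]
    have h4 := hdepth (g :: l).reverse ⟨List.isChain_reverse.2 h1, fun x hx =>
      h2 x (List.mem_reverse.1 hx)⟩
    rw [List.filter_reverse, List.length_reverse] at h4
    exact h4

/-! ### Trees -/

lemma exists_fixed_rev {τ : Type} [Inhabited τ] {s : ℕ} (F : Fin s → (Fin s → τ) → τ)
    (hF : ∀ i v v', (∀ j, i < j → v j = v' j) → F i v = F i v') :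
    ∃ v : Fin s → τ, ∀ i, v i = F i v := by
  obtain ⟨v, hv⟩ := exists_fixed (fun i v => F i.rev fun j => v j.rev) (by
    intro i v v' h
    apply hF
    intro j hj
    apply h
    rw [Fin.rev_lt_iff]
    exact hj)
  refine ⟨fun j => v j.rev, fun i => ?_⟩
  have := hv i.rev
  rw [Fin.rev_rev] at this
  exact this

lemma wire_unique (C : Circuit N q) {u g g' : Fin C.size} (hu : C.fanOut u ≤ 1)
    (h : Wire C u g) (h' : Wire C u g') : g = g' := by
  classical
  by_contra hne
  have hpos : ∀ g, Wire C u g → 1 ≤ (C.gate g).wires.countP (fun a => a = Sum.inr u) := by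
    intro g hg
    rw [Nat.one_le_iff_ne_zero, ← Nat.pos_iff_ne_zero, List.countP_pos_iff]
    exact ⟨_, hg, by simp⟩
  have h2 : (C.gate g).wires.countP (fun a => a = Sum.inr u) +
      (C.gate g').wires.countP (fun a => a = Sum.inr u) ≤ C.fanOut u := by
    unfold Circuit.fanOut
    rw [← sum_pair (f := fun i => (C.gate i).wires.countP (fun a => a = Sum.inr u)) hne]
    exact sum_le_sum_of_subset (subset_univ _)
  have := hpos g h
  have := hpos g' h'
  omega

open Classical in
/-- The trees formed by the unshared gates are cut into small pieces by few gates. -/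
lemma cut_trees (C : Circuit N q) (H : Finset (Fin C.size)) (a : ℕ) (ha : 1 ≤ a) :
    ∃ (H' : Finset (Fin C.size)) (κ : Fin C.size → Fin C.size), H ⊆ H' ∧
      (H'.card - H.card) * a ≤ 2 * C.size ∧
      (∀ b, (moduleSources C κ b).card ≤ 2 * a) ∧
      (∀ u, Cross C H' κ u → 2 ≤ C.fanOut u ∧ κ u = u) := by
  obtain ⟨wt, hwt⟩ := exists_fixed (τ := ℕ) (s := C.size)
    (fun g v => 2 + ∑ u ∈ univ.filter (fun u => Wire C u g ∧ C.fanOut u ≤ 1 ∧ u ∉ H),
      if v u < a then v u else 0) (by
    intro g v v' h
    congr 1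
    apply sum_congr rfl
    intro u hu
    rw [h u (C.acyclic g u (mem_filter.1 hu).2.1)])
  set cuts : Finset (Fin C.size) := univ.filter fun g => a ≤ wt g with hcuts
  set kid : Fin C.size → Finset (Fin C.size) :=
    fun g => univ.filter fun u => Wire C u g ∧ C.fanOut u ≤ 1 ∧ u ∉ H ∧ wt u < a with hkid
  have hwt' : ∀ g, wt g = 2 + ∑ u ∈ kid g, wt u := by
    intro g
    rw [hwt g, ← sum_filter, filter_filter]
    congr 1
    apply sum_congr _ (fun _ _ => rfl)
    ext u
    simp only [hkid, mem_filter, mem_univ, true_and]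
    tauto
  have hkmem : ∀ u g, u ∈ kid g ↔ Wire C u g ∧ C.fanOut u ≤ 1 ∧ u ∉ H ∧ wt u < a := by
    intro u g
    simp [hkid]
  have hkidc : ∀ g, (kid g).card ≤ 2 := by
    intro g
    refine le_trans ?_ (wires_card g)
    apply card_le_card_of_injOn (fun u => (Sum.inr u : Src N q C.size))
    · intro u hu
      exact mem_coe.2 (List.mem_toFinset.2 ((hkmem u g).1 (mem_coe.1 hu)).1)
    · intro x _ y _ h
      exact Sum.inr_injective h
  have hwtle : ∀ g, wt g ≤ 2 * a := by
    intro g
    rw [hwt' g]
    have : ∑ u ∈ kid g, wt u ≤ ∑ _u ∈ kid g, (a - 1) := by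
      apply sum_le_sum
      intro u hu
      have := ((hkmem u g).1 hu).2.2.2
      omega
    rw [sum_const, smul_eq_mul] at this
    have h2 : (kid g).card * (a - 1) ≤ 2 * (a - 1) := Nat.mul_le_mul_right _ (hkidc g)
    omega
  have hkuniq : ∀ u g g', u ∈ kid g → u ∈ kid g' → g = g' := by
    intro u g g' h h'
    rw [hkmem] at h h'
    exact wire_unique C h.2.1 h.1 h'.1
  -- the pieces
  obtain ⟨κ, hκ⟩ : ∃ κ : Fin C.size → Fin C.size, ∀ u,
      κ u = if h : ∃ g, u ∈ kid g then κ h.choose else u := by
    haveI : Inhabited (Fin C.size) := ⟨C.out⟩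
    apply exists_fixed_rev (fun u v => if h : ∃ g, u ∈ kid g then v h.choose else u)
    intro u v v' h
    split_ifs with hex
    · apply h
      exact C.acyclic _ _ ((hkmem _ _).1 hex.choose_spec).1
    · rfl
  have hκ1 : ∀ u g, u ∈ kid g → κ u = κ g := by
    intro u g h
    have hex : ∃ g, u ∈ kid g := ⟨g, h⟩
    rw [hκ u, dif_pos hex, hkuniq u _ g hex.choose_spec h]
  have hκ2 : ∀ u, (∀ g, u ∉ kid g) → κ u = u := by
    intro u h
    rw [hκ u, dif_neg]
    push Not
    exact h
  -- the weights of the roots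
  have hroot : ∀ P : Finset (Fin C.size), (∀ g u, u ∈ kid g → (u ∈ P ↔ g ∈ P)) →
      ∑ u ∈ P.filter (fun u => ∀ g, u ∉ kid g), wt u = 2 * P.card := by
    intro P hP
    have h1 : ∑ g ∈ P, wt g = 2 * P.card + ∑ g ∈ P, ∑ u ∈ kid g, wt u := by
      calc ∑ g ∈ P, wt g = ∑ g ∈ P, (2 + ∑ u ∈ kid g, wt u) := sum_congr rfl fun g _ => hwt' g
        _ = _ := by rw [sum_add_distrib, sum_const, smul_eq_mul, mul_comm]
    have h2 : ∑ g ∈ P, ∑ u ∈ kid g, wt u = ∑ u ∈ P.filter (fun u => ¬ ∀ g, u ∉ kid g), wt u := by
      rw [← sum_biUnion]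
      · apply sum_congr _ (fun _ _ => rfl)
        ext u
        simp only [mem_biUnion, mem_filter, not_forall, not_not]
        constructor
        · rintro ⟨g, hg, hu⟩
          exact ⟨(hP g u hu).2 hg, g, hu⟩
        · rintro ⟨hu, g, hg⟩
          exact ⟨g, (hP g u hg).1 hu, hg⟩
      · intro g _ g' _ hne
        simp only [Function.onFun]
        rw [Finset.disjoint_left]
        intro u hu hu'
        exact hne (hkuniq u g g' hu hu')
    have h3 := sum_filter_add_sum_filter_not P (fun u => ∀ g, u ∉ kid g) wt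
    omega
  refine ⟨H ∪ cuts, κ, subset_union_left, ?_, ?_, ?_⟩
  · -- few cuts
    have h1 : (H ∪ cuts).card ≤ H.card + cuts.card := card_union_le _ _
    have h2 := hroot univ (fun _ _ _ => by simp)
    rw [card_univ, Fintype.card_fin] at h2
    calc ((H ∪ cuts).card - H.card) * a ≤ cuts.card * a := Nat.mul_le_mul_right _ (by omega)
      _ ≤ ∑ u ∈ cuts, wt u := by
          rw [← smul_eq_mul, ← sum_const]
          exact sum_le_sum fun u hu => (mem_filter.1 hu).2
      _ ≤ ∑ u ∈ univ.filter (fun u => ∀ g, u ∉ kid g), wt u := by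
          apply sum_le_sum_of_subset
          intro u hu
          rw [mem_filter]
          refine ⟨mem_univ _, fun g hg => ?_⟩
          have h3 := ((hkmem u g).1 hg).2.2.2
          have h4 := (mem_filter.1 hu).2
          omega
      _ = 2 * C.size := h2
  · -- the pieces are small
    intro b
    set P : Finset (Fin C.size) := univ.filter fun g => κ g = b with hP
    have h1 := hroot P (by
      intro g u hu
      simp only [hP, mem_filter, mem_univ, true_and]
      rw [hκ1 u g hu])
    have h2 : ∑ u ∈ P.filter (fun u => ∀ g, u ∉ kid g), wt u ≤ 2 * a := by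
      have h3 : P.filter (fun u => ∀ g, u ∉ kid g) ⊆ {b} := by
        intro u hu
        simp only [hP, mem_filter, mem_univ, true_and] at hu
        rw [mem_singleton, ← hu.1]
        exact (hκ2 u hu.2).symm
      calc _ ≤ ∑ u ∈ {b}, wt u := sum_le_sum_of_subset h3
        _ = wt b := sum_singleton _ _
        _ ≤ 2 * a := hwtle b
    have h4 : (moduleSources C κ b).card ≤ 2 * P.card := by
      have h5 : moduleSources C κ b ⊆ P.biUnion fun g => (C.gate g).wires.toFinset := by
        intro x hx
        simp only [moduleSources, mem_filter, mem_univ, true_and] at hx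
        obtain ⟨⟨g, hg, hxg⟩, -⟩ := hx
        exact mem_biUnion.2 ⟨g, mem_filter.2 ⟨mem_univ _, hg⟩, List.mem_toFinset.2 hxg⟩
      refine (card_le_card h5).trans (card_biUnion_le.trans ?_)
      calc ∑ g ∈ P, (C.gate g).wires.toFinset.card ≤ ∑ _g ∈ P, 2 :=
            sum_le_sum fun g _ => wires_card g
        _ = 2 * P.card := by simp [mul_comm]
    omega
  · -- ports are shared
    rintro u ⟨huH, g, hug, hne⟩
    rw [mem_union, not_or] at huH
    have hwu : wt u < a := by
      by_contra hcon
      exact huH.2 (mem_filter.2 ⟨mem_univ _, not_lt.1 hcon⟩)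
    have hfan : 2 ≤ C.fanOut u := by
      by_contra hcon
      apply hne
      exact (hκ1 u g ((hkmem u g).2 ⟨hug, by omega, huH.1, hwu⟩)).symm
    refine ⟨hfan, hκ2 u fun g' hg' => ?_⟩
    have := ((hkmem u g').1 hg').2.1
    omega

end Pool.Agent.W949.Nest
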