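import Mathlib
import Pool.Agent.W949.Nest.Engine
import Pool.Agent.W949.Nest.Tree

/-! # The superlinear lower bound for circuits with bounded nesting of shared gates -/

open Finset

namespace Pool.Agent.W949.Nest

open Pool.Agent.H559R2.Sharing Pool.Agent.H468R2.Frag

theorem main_bound (c r K : ℕ) : ∃ E n₀ : ℕ, 0 < E ∧
    ∀ (N q : ℕ) (C : Circuit N q) (H : Finset (Fin C.size)), n₀ ≤ N → C.Computes (gipFun N) →
      E * q ≤ N → E * H.card ≤ N →
      (SharingDepthLE C H K r ∨ ∃ κ : Fin C.size → ℕ, ModularLE C H κ K r E) →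
      c * N < C.size := by
  classical
  obtain ⟨E₁, n₁, hE₁, h₁⟩ := engine c r 1 K
  obtain ⟨E₂, n₂, hE₂, h₂⟩ := engine c r r K
  refine ⟨4 * E₁ * E₂, n₁ + n₂ + 4 * E₁ + 16 * c * E₁ * E₁ + 1, by positivity, ?_⟩
  intro N q C H hN hC hq hH hdis
  have hE₁' : E₁ ≤ 4 * E₁ * E₂ := by nlinarith
  have hE₂' : E₂ ≤ 4 * E₁ * E₂ := by nlinarith
  rcases hdis with hs | ⟨κ, hκ⟩
  · by_contra hcon
    push Not at hcon
    have ha1 : 1 ≤ N / (2 * E₁) := by
      rw [Nat.one_le_div_iff (by omega)]
      omega
    obtain ⟨H', κ, hHH', hcut, hreads, hports⟩ := cut_trees C H (N / (2 * E₁)) ha1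
    set a := N / (2 * E₁) with ha
    obtain ⟨sm, hsm⟩ : ∃ sm : Fin C.size → Prop, ∀ g, sm g ↔ (C.supp g).card ≤ K :=
      ⟨_, fun _ => Iff.rfl⟩
    have hdepth : ∀ l, IsPath C H' l →
        (l.filter fun g => Cross C H' κ g ∧ ¬ sm g).length ≤ r := by
      intro l hl
      refine le_trans ?_ (hs l ⟨hl.1, fun g hg h => hl.2 g hg (hHH' h)⟩)
      apply List.Sublist.length_le
      apply List.monotone_filter_right
      intro g hg
      have hg' : Cross C H' κ g ∧ ¬ sm g := of_decide_eq_true hg
      rw [hsm, not_le] at hg'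
      exact decide_eq_true ⟨(hports g hg'.1).1, hg'.2⟩
    obtain ⟨lev, hlev⟩ := exists_lev C H' κ sm r 1 (fun _ => 0) hdepth (by
      intro b
      rw [add_zero, card_le_one]
      intro g hg g' hg'
      simp only [mem_filter, mem_univ, true_and] at hg hg'
      rw [← (hports g hg.1.1).2, ← (hports g' hg'.1.1).2, hg.2, hg'.2])
    have hN0 : 0 < N := by omega
    have hmod : 2 * E₁ * a ≤ N := Nat.mul_div_le N (2 * E₁)
    have hlow : N ≤ 4 * E₁ * a := by
      have h3 := Nat.lt_mul_div_succ N (show 0 < 2 * E₁ by omega)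
      rw [← ha] at h3
      have h4 : 2 * E₁ * (a + 1) = 2 * E₁ * a + 2 * E₁ := by ring
      have h5 : 4 * E₁ * a = 2 * E₁ * a + 2 * E₁ * a := by ring
      omega
    have hread' : ∀ b, (moduleSources C κ b).card ≤ N / E₁ := by
      intro b
      refine (hreads b).trans ?_
      rw [Nat.le_div_iff_mul_le hE₁]
      calc 2 * a * E₁ = 2 * E₁ * a := by ring
        _ ≤ N := hmod
    have hx : H'.card - H.card ≤ 8 * c * E₁ := by
      have h3 : N * (H'.card - H.card) ≤ N * (8 * c * E₁) := by
        calc N * (H'.card - H.card) ≤ 4 * E₁ * a * (H'.card - H.card) :=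
              Nat.mul_le_mul_right _ hlow
          _ = 4 * E₁ * ((H'.card - H.card) * a) := by ring
          _ ≤ 4 * E₁ * (2 * C.size) := Nat.mul_le_mul_left _ hcut
          _ ≤ 4 * E₁ * (2 * (c * N)) := by gcongr
          _ = N * (8 * c * E₁) := by ring
      exact Nat.le_of_mul_le_mul_left h3 hN0
    have hH' : E₁ * H'.card ≤ N := by
      have h3 : H'.card ≤ H.card + 8 * c * E₁ := by omega
      have h4 : 4 * (E₁ * H.card) ≤ N := by
        calc 4 * (E₁ * H.card) = 4 * E₁ * 1 * H.card := by ring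
          _ ≤ 4 * E₁ * E₂ * H.card := by gcongr; omega
          _ ≤ N := hH
      have h5 : 2 * (E₁ * (8 * c * E₁)) ≤ N := by
        calc 2 * (E₁ * (8 * c * E₁)) = 16 * c * E₁ * E₁ := by ring
          _ ≤ N := by omega
      have h6 : E₁ * H'.card ≤ E₁ * H.card + E₁ * (8 * c * E₁) := by
        rw [← mul_add]
        exact Nat.mul_le_mul_left _ h3
      omega
    have h := h₁ C H' κ sm lev (fun _ => 0) (by omega) hC (fun g hg => (hsm g).1 hg) hlev (by simp) hread'
      ((Nat.mul_le_mul_right _ hE₁').trans hq) hH'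
    omega
  · let κ' : Fin C.size → Set.range κ := fun u => ⟨κ u, u, rfl⟩
    let sm : Fin C.size → Prop := fun g => (C.supp g).card ≤ K
    let x : Set.range κ → ℕ := fun b => (univ.filter fun g => κ g = b.1).card / E₂
    have hport : ∀ u, (Cross C H κ' u ∧ ¬ sm u) ↔ IsPort C H κ K u := by
      intro u
      simp only [IsPort, Cross, κ', sm, ne_eq, Subtype.ext_iff, not_le]
      tauto
    have hsrc : ∀ b, moduleSources C κ' b = moduleSources C κ b.1 := by
      intro b
      ext x
      simp only [moduleSources, κ', ne_eq, Subtype.ext_iff]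
    have hx : E₂ * ∑ b, x b ≤ C.size := by
      calc E₂ * ∑ b, x b = ∑ b, E₂ * x b := mul_sum _ _ _
        _ ≤ ∑ b, (univ.filter fun g => κ' g = b).card := by
            refine sum_le_sum fun b _ => (Nat.mul_div_le _ _).trans (le_of_eq ?_)
            congr 1
            ext g
            simp only [mem_filter, mem_univ, true_and, κ', Subtype.ext_iff]
        _ = C.size := by
            rw [← card_eq_sum_card_fiberwise (fun g _ => mem_coe.2 (mem_univ (κ' g)))]
            simp
    obtain ⟨lev, hlev⟩ := exists_lev C H κ' sm r r x (by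
      intro l hl
      refine le_trans (le_of_eq ?_) (hκ.depth l hl)
      congr 1
      apply List.filter_congr
      intro g _
      simp only [hport]) (by
      intro b
      refine le_trans (le_of_eq ?_) ((hκ.ports b.1).trans
        (Nat.add_le_add_left (Nat.div_le_div_left hE₂' hE₂) _))
      congr 1
      ext g
      simp only [mem_filter, mem_univ, true_and, hport, κ', Subtype.ext_iff])
    refine h₂ C H κ' sm lev x (by omega) hC (fun g hg => hg) hlev hx ?_
      ((Nat.mul_le_mul_right _ hE₂').trans hq) ((Nat.mul_le_mul_right _ hE₂').trans hH)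
    intro b
    rw [hsrc]
    refine (hκ.reads b.1).trans ?_
    exact Nat.div_le_div_left hE₂' hE₂

end Pool.Agent.W949.Nest
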